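import Pool.Agent.D0H24.QW.CntQ

/-!
# The main theorem
-/

set_option autoImplicit false

namespace Pool.Agent.D0H24.QW

open MeasureTheory ProbabilityTheory Finset Filter
open Pool.Agent.D0H24.IP
open Pool.Agent.D0H24.SR (Fil Fil_mono)
open scoped ENNReal

set_option linter.unusedSectionVars false
set_option linter.unusedVariables false

variable {Ω : Type*} [m0 : MeasurableSpace Ω] {P : Measure Ω} {ξ : ℕ → Ω → ℕ}

lemma div_big (n D : ℕ) (hD : 1 ≤ D) (hDn : D ≤ n) :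
    1 ≤ n / D ∧ (n / D) * D ≤ n ∧ n ≤ 2 * D * (n / D) := by
  have h1 : 1 ≤ n / D := (Nat.one_le_div_iff hD).2 hDn
  have h2 : (n / D) * D ≤ n := Nat.div_mul_le_self n D
  have h3 := Nat.lt_div_mul_add (a := n) hD
  have h4 : D ≤ (n / D) * D := Nat.le_mul_of_pos_left _ h1
  have e : 2 * D * (n / D) = 2 * ((n / D) * D) := by ring
  exact ⟨h1, h2, by rw [e]; omega⟩

/-- the case of small `m` -/
lemma caseA (h : Ber P ξ) (h0 : ∀ ω, ξ 0 ω = 0) (q κ A K z₁ : ℕ) (ω : Ω) (m n : ℕ)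
    (hz₁ : ∀ z, z₁ ≤ z → ∀ r, Nat.Coprime r q →
      ∃ c t, z < c ∧ c ≤ z + Lam z ^ A ∧ c % q = r % q ∧ t < z * Lam z ^ A ∧ Gp ξ c t ω)
    (hm : 1 ≤ m) (hmK : m ≤ Lam n ^ (K + 1)) (hL : z₁ + 32 ≤ Lam n) (hn : 16 ≤ n)
    (hDn : 8 * Lam n ^ (2 * A + K + κ + 4) ≤ n) (r c0 : ℕ) (hr : r < m) (hc0 : Nat.Coprime c0 q)
    (hF : ∀ z, (n + 1) / 2 + (m * (z + Lam n ^ (A + κ + 3)) + r) ≤ n →
      Bn κ n ≤ (Dz ξ q c0 ((n + 1) / 2) z (Lam n ^ (A + κ + 3)) ω).card →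
        ∃ c ∈ Dz ξ q c0 ((n + 1) / 2) z (Lam n ^ (A + κ + 3)) ω, ξ (n - (m * c + r)) ω = 1) :
    n ≤ (Sol {j | ξ j ω = 1} m n).ncard * Lam n ^ (2 * A + K + κ + 5) := by
  have hL1 : 1 ≤ Lam n := Lam_pos n
  obtain ⟨W, hW⟩ : ∃ W, W = Lam n ^ (A + κ + 3) := ⟨_, rfl⟩
  rw [← hW] at hF
  have hW1 : 1 ≤ W := by rw [hW]; exact Nat.pow_pos hL1
  have hLA : 1 ≤ Lam n ^ A := Nat.pow_pos hL1
  obtain ⟨D, hD⟩ : ∃ D, D = 8 * m * W * Lam n ^ A := ⟨_, rfl⟩
  have hDle : D ≤ 8 * Lam n ^ (2 * A + K + κ + 4) := by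
    rw [hD, hW]
    calc 8 * m * Lam n ^ (A + κ + 3) * Lam n ^ A ≤
        8 * Lam n ^ (K + 1) * Lam n ^ (A + κ + 3) * Lam n ^ A := by gcongr
      _ = 8 * (Lam n ^ (K + 1) * Lam n ^ (A + κ + 3) * Lam n ^ A) := by ring
      _ = 8 * Lam n ^ (2 * A + K + κ + 4) := by
          rw [← pow_add, ← pow_add]
          congr 2
          ring
  have hD1 : 1 ≤ D := by
    rw [hD]
    have : 0 < 8 * m * W * Lam n ^ A := by positivity
    omega
  obtain ⟨hJ1, hJ2, hJ3⟩ := div_big n D hD1 (hDle.trans hDn)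
  set J := n / D with hJ
  have hWL : Lam n ≤ W := by
    rw [hW]
    exact Nat.le_self_pow (by omega) _
  have hBW : Bn κ n * Lam n ^ A = W := by
    rw [hW]
    unfold Bn
    rw [← pow_add]
    congr 1
    ring
  have key : J ≤ (Sol {j | ξ j ω = 1} m n).ncard := by
    apply countA h h0 ω m n J W r hm hr
    intro j hj
    obtain ⟨u, hu⟩ : ∃ u, u = (j + 1) * W := ⟨_, rfl⟩
    have hWu : W ≤ u := by
      rw [hu]
      exact Nat.le_mul_of_pos_left _ (by omega)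
    have e2 : (j + 2) * W = u + W := by rw [hu]; ring
    have hjD : 8 * (m * u * Lam n ^ A) ≤ n := by
      have a1 : (j + 1) * D ≤ J * D := Nat.mul_le_mul_right _ hj
      have a2 : 8 * (m * u * Lam n ^ A) = (j + 1) * D := by
        rw [hu, hD]
        ring
      rw [a2]
      exact a1.trans hJ2
    have hmu : m * u ≤ m * u * Lam n ^ A := Nat.le_mul_of_pos_right _ hLA
    have huA : u * Lam n ^ A ≤ m * u * Lam n ^ A := by
      rw [mul_assoc]
      exact Nat.le_mul_of_pos_left _ hm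
    have huu : u ≤ m * u := Nat.le_mul_of_pos_left _ hm
    have hmm : m ≤ m * u := Nat.le_mul_of_pos_right _ (by omega)
    have hmW : m * (u + W) ≤ 2 * (m * u) := by
      calc m * (u + W) ≤ m * (2 * u) := Nat.mul_le_mul_left _ (by omega)
        _ = _ := by ring
    have hcond : (n + 1) / 2 + (m * (u + W) + r) ≤ n := by omega
    have hcard : Bn κ n ≤ (Dz ξ q c0 ((n + 1) / 2) u W ω).card := by
      apply card_windows _ u (Lam n ^ A)
      intro i hi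
      have b1 : (i + 1) * Lam n ^ A ≤ Bn κ n * Lam n ^ A := Nat.mul_le_mul_right _ hi
      have b2 : (i + 1) * Lam n ^ A = i * Lam n ^ A + Lam n ^ A := by ring
      rw [hBW] at b1
      obtain ⟨c, t, c1, c2, c3, c4, c5⟩ := hz₁ (u + i * Lam n ^ A) (by omega) c0 hc0
      have b3 : Lam (u + i * Lam n ^ A) ^ A ≤ Lam n ^ A :=
        Nat.pow_le_pow_left (Lam_mono (by omega)) A
      have b4 : (u + i * Lam n ^ A) * Lam (u + i * Lam n ^ A) ^ A ≤ (2 * u) * Lam n ^ A :=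
        Nat.mul_le_mul (by omega) b3
      have b5 : (2 * u) * Lam n ^ A = 2 * (u * Lam n ^ A) := by ring
      obtain ⟨d1, d2⟩ := Gp_le h h0 c5
      refine ⟨c, mem_Dz.2 ⟨by omega, ⟨by omega, by omega, c3⟩, t, by omega, c5⟩, c1, by omega⟩
    obtain ⟨c, hc, hsol⟩ := hF u hcond hcard
    obtain ⟨c1, ⟨c2, c3, c4⟩, t, c5, c6⟩ := mem_Dz.1 hc
    have hmc : m * c ≤ m * (u + W) := Nat.mul_le_mul_left _ c3
    exact ⟨c, t, c6, by rw [← hu]; exact c2, by rw [e2]; exact c3, by omega, hsol⟩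
  calc n ≤ 2 * D * J := hJ3
    _ ≤ (2 * (8 * Lam n ^ (2 * A + K + κ + 4))) * (Sol {j | ξ j ω = 1} m n).ncard :=
        Nat.mul_le_mul (Nat.mul_le_mul_left _ hDle) key
    _ = (Sol {j | ξ j ω = 1} m n).ncard * (16 * Lam n ^ (2 * A + K + κ + 4)) := by ring
    _ ≤ (Sol {j | ξ j ω = 1} m n).ncard * (Lam n * Lam n ^ (2 * A + K + κ + 4)) :=
        Nat.mul_le_mul_left _ (Nat.mul_le_mul_right _ (by omega))
    _ = _ := by rw [← pow_succ']

/-- the case of large `m` and a large quotient -/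
lemma caseB (h : Ber P ξ) (h0 : ∀ ω, ξ 0 ω = 0) (q A K x₁ z₁ : ℕ) (ω : Ω) (m n : ℕ)
    (hgap : ∀ x, x₁ ≤ x → ∃ p, x ≤ p ∧ p < x + Lam x ^ K ∧ ξ p ω = 1)
    (hz₁ : ∀ z, z₁ ≤ z → ∀ r, Nat.Coprime r q →
      ∃ c t, z < c ∧ c ≤ z + Lam z ^ A ∧ c % q = r % q ∧ t < z * Lam z ^ A ∧ Gp ξ c t ω)
    (hm : 1 ≤ m) (hmK : Lam n ^ (K + 1) < m) (hL : z₁ + 32 ≤ Lam n) (hn : 2 * x₁ ≤ n)
    (hbig : m * Lam n ^ (A + 2) < n) :
    n ≤ (Sol {j | ξ j ω = 1} m n).ncard * Lam n ^ (A + K + 2) := by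
  have hL1 : 1 ≤ Lam n := Lam_pos n
  obtain ⟨W, hW⟩ : ∃ W, W = Lam n ^ (A + 1) := ⟨_, rfl⟩
  have hW1 : 1 ≤ W := by rw [hW]; exact Nat.pow_pos hL1
  have hWL : Lam n ≤ W := by
    rw [hW]
    exact Nat.le_self_pow (by omega) _
  have hAW : Lam n ^ A ≤ W := by
    rw [hW]
    exact Nat.pow_le_pow_right hL1 (by omega)
  have hV1 : 1 ≤ Lam n ^ K := Nat.pow_pos hL1
  have hVm : Lam n ^ K ≤ m := by
    have : Lam n ^ K ≤ Lam n ^ (K + 1) := Nat.pow_le_pow_right hL1 (by omega)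
    omega
  have hDn : 8 * m * W ≤ n := by
    have e : m * Lam n ^ (A + 2) = m * W * Lam n := by
      rw [hW, mul_assoc, ← pow_succ]
    rw [e] at hbig
    have : m * W * 8 ≤ m * W * Lam n := Nat.mul_le_mul_left _ (by omega)
    have e2 : 8 * m * W = m * W * 8 := by ring
    omega
  have hD1 : 1 ≤ 8 * m * W := by
    have : 0 < 8 * m * W := by positivity
    omega
  obtain ⟨hJ1, hJ2, hJ3⟩ := div_big n (8 * m * W) hD1 hDn
  obtain ⟨hI1, hI2, hI3⟩ := div_big m (Lam n ^ K) hV1 hVm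
  set J := n / (8 * m * W) with hJ
  have hex : ∀ j, ∃ c t, j < J → (j + 1) * W < c ∧ c ≤ (j + 1) * W + W ∧ Gp ξ c t ω ∧
      8 * (m * ((j + 1) * W)) ≤ n := by
    intro j
    by_cases hj : j < J
    · have a1 : (j + 1) * (8 * m * W) ≤ J * (8 * m * W) := Nat.mul_le_mul_right _ hj
      have a2 : (j + 1) * (8 * m * W) = 8 * (m * ((j + 1) * W)) := by ring
      have a3 : (j + 1) * W ≤ m * ((j + 1) * W) := Nat.le_mul_of_pos_left _ hm
      have a4 : W ≤ (j + 1) * W := Nat.le_mul_of_pos_left _ (by omega)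
      obtain ⟨c, t, c1, c2, -, -, c5⟩ := hz₁ ((j + 1) * W) (by omega) 1 (Nat.coprime_one_left q)
      have a5 : Lam ((j + 1) * W) ^ A ≤ Lam n ^ A := Nat.pow_le_pow_left (Lam_mono (by omega)) A
      exact ⟨c, t, fun _ => ⟨c1, by omega, c5, by omega⟩⟩
    · exact ⟨0, 0, fun hc => absurd hc hj⟩
  choose c t hct using hex
  have key := countB h h0 (q := q) (K := K) ω x₁ hgap m n J hm hn c t (fun j hj => (hct j hj).2.2.1)
    (by
      intro j hj j' hj' hjj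
      obtain ⟨a1, a2, -, -⟩ := hct j hj
      obtain ⟨b1, b2, -, -⟩ := hct j' hj'
      rw [hjj] at a1 a2
      by_contra hne
      rcases Nat.lt_or_gt_of_ne hne with hlt | hlt
      · have : (j + 2) * W ≤ (j' + 1) * W := Nat.mul_le_mul_right _ (by omega)
        have e : (j + 2) * W = (j + 1) * W + W := by ring
        omega
      · have : (j' + 2) * W ≤ (j + 1) * W := Nat.mul_le_mul_right _ (by omega)
        have e : (j' + 2) * W = (j' + 1) * W + W := by ring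
        omega)
    (by
      intro j hj
      obtain ⟨a1, a2, -, a4⟩ := hct j hj
      have a5 : W ≤ (j + 1) * W := Nat.le_mul_of_pos_left _ (by omega)
      have a6 : m * (c j + 1) ≤ m * (3 * ((j + 1) * W)) := Nat.mul_le_mul_left _ (by omega)
      have a7 : m * (3 * ((j + 1) * W)) = 3 * (m * ((j + 1) * W)) := by ring
      omega)
  calc n ≤ 2 * (8 * m * W) * J := hJ3
    _ = m * (16 * W * J) := by ring
    _ ≤ (2 * Lam n ^ K * (m / Lam n ^ K)) * (16 * W * J) := Nat.mul_le_mul_right _ hI3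
    _ = (J * (m / Lam n ^ K)) * (32 * (W * Lam n ^ K)) := by ring
    _ ≤ (Sol {j | ξ j ω = 1} m n).ncard * (Lam n * (W * Lam n ^ K)) :=
        Nat.mul_le_mul key (Nat.mul_le_mul_right _ (by omega))
    _ = _ := by
        rw [hW]
        congr 1
        rw [← pow_add, ← pow_succ']
        congr 1
        ring

/-- the case of large `m` and a small quotient -/
lemma caseC (h : Ber P ξ) (h0 : ∀ ω, ξ 0 ω = 0) (q A K x₁ cs ts : ℕ) (ω : Ω) (m n : ℕ)
    (hgap : ∀ x, x₁ ≤ x → ∃ p, x ≤ p ∧ p < x + Lam x ^ K ∧ ξ p ω = 1) (hcs : Gp ξ cs ts ω)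
    (hm : 1 ≤ m) (hmK : Lam n ^ (K + 1) < m) (hL : 2 ≤ Lam n) (hn : 2 * x₁ ≤ n)
    (hbig : n ≤ m * Lam n ^ (A + 2)) (hC : 2 * (m * (cs + 1)) ≤ n) :
    n ≤ (Sol {j | ξ j ω = 1} m n).ncard * Lam n ^ (A + K + 3) := by
  have hL1 : 1 ≤ Lam n := Lam_pos n
  have hV1 : 1 ≤ Lam n ^ K := Nat.pow_pos hL1
  have hVm : Lam n ^ K ≤ m := by
    have : Lam n ^ K ≤ Lam n ^ (K + 1) := Nat.pow_le_pow_right hL1 (by omega)
    omega
  obtain ⟨hI1, hI2, hI3⟩ := div_big m (Lam n ^ K) hV1 hVm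
  have key := countB h h0 (q := q) (K := K) ω x₁ hgap m n 1 hm hn (fun _ => cs) (fun _ => ts)
    (fun j hj => hcs) (fun j hj j' hj' _ => by omega) (fun j hj => hC)
  rw [one_mul] at key
  calc n ≤ m * Lam n ^ (A + 2) := hbig
    _ ≤ (2 * Lam n ^ K * (m / Lam n ^ K)) * Lam n ^ (A + 2) := Nat.mul_le_mul_right _ hI3
    _ = (m / Lam n ^ K) * (2 * (Lam n ^ K * Lam n ^ (A + 2))) := by ring
    _ ≤ (Sol {j | ξ j ω = 1} m n).ncard * (Lam n * (Lam n ^ K * Lam n ^ (A + 2))) :=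
        Nat.mul_le_mul key (Nat.mul_le_mul_right _ hL)
    _ = _ := by
        congr 1
        rw [← pow_add, ← pow_succ']
        congr 1
        ring

/-- the main theorem, with a logarithm to the base `2` -/
theorem main_nat [IsProbabilityMeasure P] {q κ : ℕ} (hq : 1 ≤ q) (h : Mod P ξ q κ) :
    ∃ K1, ∀ᵐ ω ∂P, ∃ C : ℕ, ∀ m n, 1 ≤ m → C * m ≤ n → Adm m n →
      n ≤ (Sol {j | ξ j ω = 1} m n).ncard * Lam n ^ K1 := by
  obtain ⟨A, hA⟩ := gapI hq h
  obtain ⟨K, hK1, hG, -⟩ := gaps hq h 1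
  refine ⟨2 * A + K + κ + 5, ?_⟩
  filter_upwards [hA, hG, finA hq h (fun n => Lam n ^ (A + κ + 3))] with ω h1 h2 h3
  obtain ⟨z₁, hz₁⟩ := eventually_atTop.1 h1
  obtain ⟨x₁, hx₁⟩ := eventually_atTop.1 h2
  obtain ⟨n₁, hn₁⟩ := eventually_atTop.1 h3
  obtain ⟨n₂, hn₂⟩ := eventually_atTop.1 (Lam_pow_le (2 * A + K + κ + 4) 8)
  obtain ⟨n₃, hn₃⟩ := eventually_atTop.1 (tendsto_Lam.eventually_ge_atTop (z₁ + 32))
  obtain ⟨cs, ts, -, -, -, -, hcs⟩ := hz₁ z₁ le_rfl 1 (Nat.coprime_one_left q)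
  refine ⟨2 * (cs + 1) + (2 * x₁ + n₁ + n₂ + n₃ + 16), ?_⟩
  intro m n hm hC hAdm
  have hC1 : 2 * (cs + 1) + (2 * x₁ + n₁ + n₂ + n₃ + 16) ≤ n :=
    (Nat.le_mul_of_pos_right _ hm).trans hC
  have hC2 : 2 * (m * (cs + 1)) ≤ n := by
    have e : (2 * (cs + 1) + (2 * x₁ + n₁ + n₂ + n₃ + 16)) * m =
        2 * (m * (cs + 1)) + (2 * x₁ + n₁ + n₂ + n₃ + 16) * m := by ring
    omega
  have hmn : m ≤ n := by
    have : m ≤ m * (cs + 1) := Nat.le_mul_of_pos_right _ (by omega)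
    omega
  have hL := hn₃ n (by omega)
  have hL1 : 1 ≤ Lam n := Lam_pos n
  have hgap : ∀ x, x₁ ≤ x → ∃ p, x ≤ p ∧ p < x + Lam x ^ K ∧ ξ p ω = 1 := by
    intro x hx
    obtain ⟨p, p1, p2, -, p4⟩ := hx₁ x hx 1 (Nat.coprime_one_left q)
    exact ⟨p, p1, p2, p4.1⟩
  rcases Nat.lt_or_ge (Lam n ^ (K + 1)) m with hmK | hmK
  · rcases Nat.lt_or_ge (m * Lam n ^ (A + 2)) n with hbig | hbig
    · refine (caseB h.ber h.zero q A K x₁ z₁ ω m n hgap hz₁ hm hmK hL (by omega) hbig).trans ?_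
      exact Nat.mul_le_mul_left _ (Nat.pow_le_pow_right hL1 (by omega))
    · refine (caseC h.ber h.zero q A K x₁ cs ts ω m n hgap hcs hm hmK (by omega) (by omega) hbig
        hC2).trans ?_
      exact Nat.mul_le_mul_left _ (Nat.pow_le_pow_right hL1 (by omega))
  · obtain ⟨r, c0, hr, hc0, hF⟩ := hn₁ n (by omega) m hm hmn hAdm
    exact caseA h.ber h.zero q κ A K z₁ ω m n hz₁ hm hmK hL (by omega) (hn₂ n (by omega)) r c0 hr hc0 hF

lemma asym2 (K : ℕ) : ∀ᶠ n : ℕ in atTop, ∀ N : ℕ, n ≤ N * Lam n ^ K →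
    (n : ℝ) / (Real.log n) ^ (K + 1) ≤ N := by
  filter_upwards [tendsto_log_nat.eventually_ge_atTop (3 ^ K), eventually_ge_atTop 3] with n h2 h3 N hN
  have hlog : 0 < Real.log n := lt_of_lt_of_le (by positivity) h2
  have hL0 : (0 : ℝ) < Lam n := by exact_mod_cast Lam_pos n
  have h4 : (Lam n : ℝ) ^ K ≤ (Real.log n) ^ (K + 1) := by
    calc (Lam n : ℝ) ^ K ≤ (3 * Real.log n) ^ K := pow_le_pow_left₀ hL0.le (Lam_le_log n h3) K
      _ = 3 ^ K * Real.log n ^ K := by rw [mul_pow]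
      _ ≤ Real.log n * Real.log n ^ K := mul_le_mul_of_nonneg_right h2 (by positivity)
      _ = _ := by rw [pow_succ, mul_comm]
  rw [div_le_iff₀ (by positivity)]
  calc (n : ℝ) ≤ N * (Lam n : ℝ) ^ K := by exact_mod_cast hN
    _ ≤ _ := mul_le_mul_of_nonneg_left h4 (Nat.cast_nonneg _)

/-- the theorem for events -/
theorem main_ev [IsProbabilityMeasure P] (E : ℕ → Set Ω) (hE : ∀ m, MeasurableSet (E m))
    (hind : iIndepSet E P) (q κ : ℕ) (hq : 1 ≤ q)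
    (hsmall : Tendsto (fun m => P.real (E m)) atTop (nhds 0))
    (hlarge : ∀ᶠ m : ℕ in atTop, Nat.Coprime m q → 1 / (Real.log m) ^ κ ≤ P.real (E m)) :
    ∃ K : ℕ, ∀ᵐ ω ∂P, ∃ C : ℕ, ∀ m n : ℕ, 1 ≤ m → C * m ≤ n → Adm m n →
      (n : ℝ) / (Real.log n) ^ K ≤ (Sol {j | 1 ≤ j ∧ ω ∈ E j} m n).ncard := by
  classical
  set ξ : ℕ → Ω → ℕ := fun m ω => if m = 0 then 0 else (E m).indicator (fun _ => 1) ω with hξ
  have hxi : ∀ m ω, ξ m ω = 1 ↔ 1 ≤ m ∧ ω ∈ E m := by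
    intro m ω
    simp only [hξ]
    rcases Nat.eq_zero_or_pos m with hm | hm
    · rw [if_pos hm]
      constructor
      · intro hc
        exact absurd hc (by norm_num)
      · intro hc
        omega
    · rw [if_neg (by omega), Set.indicator_apply]
      split_ifs with hω
      · exact ⟨fun _ => ⟨hm, hω⟩, fun _ => rfl⟩
      · exact ⟨fun hc => absurd hc (by norm_num), fun hc => absurd hc.2 hω⟩
  have hrho : ∀ m, 1 ≤ m → rho P ξ m = P.real (E m) := by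
    intro m hm
    unfold rho
    congr 1
    ext ω
    rw [Set.mem_ofPred_eq, hxi]
    exact ⟨fun hc => hc.2, fun hc => ⟨hm, hc⟩⟩
  have hber : Ber P ξ := by
    refine ⟨?_, ?_, ?_⟩
    · intro m
      simp only [hξ]
      rcases Nat.eq_zero_or_pos m with hm | hm
      · simp only [hm, if_true]
        exact measurable_const
      · have : m ≠ 0 := by omega
        simp only [this, if_false]
        exact measurable_const.indicator (hE m)
    · have h1 : iIndepFun (fun m => (E m).indicator fun _ => (1 : ℕ)) P := hind.iIndepFun_indicator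
      have h2 := h1.comp (fun m => fun k : ℕ => if m = 0 then 0 else k) (fun m => Measurable.of_discrete)
      exact h2
    · intro m ω
      simp only [hξ]
      split_ifs
      · norm_num
      · rw [Set.indicator_apply]
        split_ifs <;> norm_num
  have hmod : Mod P ξ q κ := by
    refine ⟨hber, ?_, ?_, ?_⟩
    · intro ω
      simp [hξ]
    · apply hsmall.congr'
      filter_upwards [eventually_ge_atTop 1] with m hm
      exact (hrho m hm).symm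
    · filter_upwards [hlarge, eventually_ge_atTop 2] with m h1 h2 h3
      rw [hrho m (by omega)]
      refine le_trans ?_ (h1 h3)
      have h4 : 0 < Real.log m := Real.log_pos (by exact_mod_cast h2)
      exact one_div_le_one_div_of_le (by positivity)
        (pow_le_pow_left₀ h4.le (log_le_Lam m (by omega)) κ)
  obtain ⟨K, hK⟩ := main_nat hq hmod
  obtain ⟨N₀, hN₀⟩ := eventually_atTop.1 (asym2 K)
  refine ⟨K + 1, ?_⟩
  filter_upwards [hK] with ω hω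
  have e : {m | ξ m ω = 1} = {m | 1 ≤ m ∧ ω ∈ E m} := by
    ext m
    exact hxi m ω
  rw [e] at hω
  obtain ⟨C, hC⟩ := hω
  refine ⟨C + N₀, fun m n hm hCm hAdm => ?_⟩
  have e2 : (C + N₀) * m = C * m + N₀ * m := by ring
  have h5 : N₀ ≤ N₀ * m := Nat.le_mul_of_pos_right _ hm
  exact hN₀ n (by omega) _ (hC m n hm (by omega) hAdm)

end Pool.Agent.D0H24.QW
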