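import Pool.Agent.D0H24.QW.FinQ

/-!
# Counting
-/

set_option autoImplicit false

namespace Pool.Agent.D0H24.QW

open MeasureTheory ProbabilityTheory Finset Filter
open Pool.Agent.D0H24.IP
open Pool.Agent.D0H24.SR (Fil Fil_mono)
open scoped ENNReal

set_option linter.unusedSectionVars false
set_option linter.unusedVariables false

/-- the `k`-th member of `A` -/
noncomputable def pr (A : Set ℕ) (k : ℕ) : ℕ := Nat.nth (fun j => j ∈ A) (k - 1)

/-- the solutions `p` -/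
def Sol (A : Set ℕ) (m n : ℕ) : Set ℕ :=
  {p | p ∈ A ∧ p < n ∧ (n - p) / m ∈ A ∧ pr A ((n - p) / m) - (n - p) / m + 1 ∈ A}

lemma Sol_finite (A : Set ℕ) (m n : ℕ) : (Sol A m n).Finite :=
  (Set.finite_Iio n).subset fun _ hp => hp.2.1

/-- distinct windows -/
lemma card_windows (T : Finset ℕ) (z V J : ℕ)
    (hw : ∀ j < J, ∃ c ∈ T, z + j * V < c ∧ c ≤ z + (j + 1) * V) : J ≤ T.card := by
  have h1 : ∀ j, ∃ c, j < J → c ∈ T ∧ z + j * V < c ∧ c ≤ z + (j + 1) * V := by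
    intro j
    by_cases hj : j < J
    · obtain ⟨c, hc⟩ := hw j hj
      exact ⟨c, fun _ => hc⟩
    · exact ⟨0, fun hc => absurd hc hj⟩
  choose f hf using h1
  have hinj : Set.InjOn f (range J : Set ℕ) := by
    intro j hj j' hj' hjj
    rw [coe_range, Set.mem_Iio] at hj hj'
    obtain ⟨-, a1, a2⟩ := hf j hj
    obtain ⟨-, b1, b2⟩ := hf j' hj'
    rw [hjj] at a1 a2
    by_contra hne
    rcases Nat.lt_or_gt_of_ne hne with hlt | hlt
    · have : (j + 1) * V ≤ j' * V := Nat.mul_le_mul_right _ hlt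
      omega
    · have : (j' + 1) * V ≤ j * V := Nat.mul_le_mul_right _ hlt
      omega
  have hcard : ((range J).image f).card = J := by
    rw [card_image_of_injOn hinj, card_range]
  rw [← hcard]
  apply card_le_card
  intro c hc
  rw [mem_image] at hc
  obtain ⟨j, hj, rfl⟩ := hc
  exact (hf j (mem_range.1 hj)).1

variable {Ω : Type*} [m0 : MeasurableSpace Ω] {P : Measure Ω} {ξ : ℕ → Ω → ℕ}

lemma Gp_le (h : Ber P ξ) (h0 : ∀ ω, ξ 0 ω = 0) {c t : ℕ} {ω : Ω} (hG : Gp ξ c t ω) :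
    1 ≤ c ∧ c ≤ t := by
  obtain ⟨h1, h2, h3, h4⟩ := hG
  have ht : 1 ≤ t := by
    by_contra hc
    have : t = 0 := by omega
    rw [this, h0 ω] at h1
    exact absurd h1 (by norm_num)
  have := S_lt h h0 t ht ω
  omega

/-- a good pair gives solutions -/
lemma sol_of (h : Ber P ξ) (h0 : ∀ ω, ξ 0 ω = 0) {c t m n p : ℕ} {ω : Ω} (hG : Gp ξ c t ω) (hm : 1 ≤ m)
    (hp : ξ p ω = 1) (h1 : p + m * c ≤ n) (h2 : n < p + m * (c + 1)) :
    p ∈ Sol {j | ξ j ω = 1} m n ∧ (n - p) / m = c := by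
  obtain ⟨hc1, hct⟩ := Gp_le h h0 hG
  obtain ⟨g1, g2, g3, g4⟩ := hG
  have e : m * (c + 1) = m * c + m := by ring
  have hmc : 1 * 1 ≤ m * c := Nat.mul_le_mul hm hc1
  have hdiv : (n - p) / m = c := by
    apply Nat.div_eq_of_lt_le
    · rw [mul_comm]
      omega
    · rw [mul_comm]
      omega
  refine ⟨⟨hp, by omega, ?_, ?_⟩, hdiv⟩
  · rw [hdiv]
    exact g3
  · rw [hdiv]
    have hpr : pr {j | ξ j ω = 1} c = t := by
      unfold pr
      have hSc := S_count h {j | ξ j ω = 1} ω (fun j => Iff.rfl) t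
      have e3 : c - 1 = S ξ t ω := by omega
      rw [e3, hSc]
      exact @Nat.nth_count (fun j => j ∈ {j | ξ j ω = 1}) (fun a => Classical.propDecidable _) t g1
    rw [hpr]
    have e2 : t - c + 1 = t + 1 - c := by omega
    rw [e2]
    exact g4

/-- large values of `m` -/
lemma countB (h : Ber P ξ) (h0 : ∀ ω, ξ 0 ω = 0) {q K : ℕ} (ω : Ω) (x₁ : ℕ)
    (hgap : ∀ x, x₁ ≤ x → ∃ p, x ≤ p ∧ p < x + Lam x ^ K ∧ ξ p ω = 1)
    (m n J : ℕ) (hm : 1 ≤ m) (hn : 2 * x₁ ≤ n) (c t : ℕ → ℕ) (hc : ∀ j < J, Gp ξ (c j) (t j) ω)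
    (hinj : ∀ j < J, ∀ j' < J, c j = c j' → j = j') (hle : ∀ j < J, 2 * (m * (c j + 1)) ≤ n) :
    J * (m / Lam n ^ K) ≤ (Sol {j | ξ j ω = 1} m n).ncard := by
  set V := Lam n ^ K with hV
  set I := m / V with hI
  have hV1 : 1 ≤ V := Nat.pow_pos (Lam_pos n)
  have hIV : I * V ≤ m := Nat.div_mul_le_self _ _
  have hex : ∀ a : ℕ × ℕ, ∃ p, a.1 < J → a.2 < I →
      n - m * (c a.1 + 1) + 1 + a.2 * V ≤ p ∧ p < n - m * (c a.1 + 1) + 1 + (a.2 + 1) * V ∧
        p ∈ Sol {j | ξ j ω = 1} m n ∧ (n - p) / m = c a.1 := by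
    rintro ⟨j, i⟩
    by_cases hji : j < J ∧ i < I
    · obtain ⟨hj, hi⟩ := hji
      have h1 := hle j hj
      have e1 : (i + 1) * V = i * V + V := by ring
      have h2 : (i + 1) * V ≤ I * V := Nat.mul_le_mul_right _ hi
      have e2 : m * (c j + 1) = m * c j + m := by ring
      obtain ⟨p, p1, p2, p3⟩ := hgap (n - m * (c j + 1) + 1 + i * V) (by omega)
      have hLV : Lam (n - m * (c j + 1) + 1 + i * V) ^ K ≤ V :=
        Nat.pow_le_pow_left (Lam_mono (by omega)) K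
      have h3 := sol_of h h0 (n := n) (hc j hj) hm p3 (by omega) (by omega)
      exact ⟨p, fun _ _ => ⟨p1, by simp only; omega, h3.1, h3.2⟩⟩
    · exact ⟨0, fun a b => absurd ⟨a, b⟩ hji⟩
  choose f hf using hex
  have hinjf : Set.InjOn f (((range J) ×ˢ (range I) : Finset (ℕ × ℕ)) : Set (ℕ × ℕ)) := by
    rintro ⟨j, i⟩ hji ⟨j', i'⟩ hji' hff
    rw [mem_coe, mem_product, mem_range, mem_range] at hji hji'
    obtain ⟨a1, a2, -, a3⟩ := hf (j, i) hji.1 hji.2
    obtain ⟨b1, b2, -, b3⟩ := hf (j', i') hji'.1 hji'.2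
    simp only at a1 a2 a3 b1 b2 b3 hji hji'
    rw [hff] at a1 a2 a3
    have hjj : j = j' := hinj j hji.1 j' hji'.1 (a3.symm.trans b3)
    subst hjj
    have hii : i = i' := by
      by_contra hne
      rcases Nat.lt_or_gt_of_ne hne with hlt | hlt
      · have : (i + 1) * V ≤ i' * V := Nat.mul_le_mul_right _ hlt
        omega
      · have : (i' + 1) * V ≤ i * V := Nat.mul_le_mul_right _ hlt
        omega
    rw [hii]
  have hcard : (((range J) ×ˢ (range I)).image f).card = J * I := by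
    rw [card_image_of_injOn hinjf, card_product, card_range, card_range]
  rw [← hcard, ← Set.ncard_coe_finset]
  apply Set.ncard_le_ncard _ (Sol_finite _ m n)
  intro p hp
  rw [coe_image, Set.mem_image] at hp
  obtain ⟨⟨j, i⟩, hji, rfl⟩ := hp
  rw [mem_coe, mem_product, mem_range, mem_range] at hji
  exact (hf (j, i) hji.1 hji.2).2.2.1

/-- small values of `m` -/
lemma countA (h : Ber P ξ) (h0 : ∀ ω, ξ 0 ω = 0) (ω : Ω) (m n J W r : ℕ) (hm : 1 ≤ m) (hr : r < m)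
    (hex : ∀ j < J, ∃ c t, Gp ξ c t ω ∧ (j + 1) * W < c ∧ c ≤ (j + 2) * W ∧ m * c + r ≤ n ∧
      ξ (n - (m * c + r)) ω = 1) :
    J ≤ (Sol {j | ξ j ω = 1} m n).ncard := by
  have hex' : ∀ j, ∃ c, j < J → (j + 1) * W < c ∧ c ≤ (j + 2) * W ∧
      n - (m * c + r) ∈ Sol {j | ξ j ω = 1} m n ∧ (n - (n - (m * c + r))) / m = c := by
    intro j
    by_cases hj : j < J
    · obtain ⟨c, t, c1, c2, c3, c4, c5⟩ := hex j hj
      have e2 : m * (c + 1) = m * c + m := by ring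
      exact ⟨c, fun _ => ⟨c2, c3, sol_of h h0 c1 hm c5 (by omega) (by omega)⟩⟩
    · exact ⟨0, fun a => absurd a hj⟩
  choose c hc using hex'
  have hinj : Set.InjOn (fun j => n - (m * c j + r)) (range J : Set ℕ) := by
    intro j hj j' hj' hjj
    rw [coe_range, Set.mem_Iio] at hj hj'
    obtain ⟨a1, a2, -, a4⟩ := hc j hj
    obtain ⟨b1, b2, -, b4⟩ := hc j' hj'
    simp only at hjj
    rw [hjj, b4] at a4
    rw [← a4] at a1 a2
    by_contra hne
    rcases Nat.lt_or_gt_of_ne hne with hlt | hlt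
    · have : (j + 2) * W ≤ (j' + 1) * W := Nat.mul_le_mul_right _ (by omega)
      omega
    · have : (j' + 2) * W ≤ (j + 1) * W := Nat.mul_le_mul_right _ (by omega)
      omega
  have hcard : ((range J).image (fun j => n - (m * c j + r))).card = J := by
    rw [card_image_of_injOn hinj, card_range]
  rw [← hcard, ← Set.ncard_coe_finset]
  apply Set.ncard_le_ncard _ (Sol_finite _ m n)
  intro p hp
  rw [coe_image, Set.mem_image] at hp
  obtain ⟨j, hj, rfl⟩ := hp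
  rw [coe_range, Set.mem_Iio] at hj
  exact (hc j hj).2.2.1

end Pool.Agent.D0H24.QW
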