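import Pool.Agent.D0H24.IP.Cnt

/-!
# One window, with a condition on the pair (index, member)
-/

set_option autoImplicit false

namespace Pool.Agent.D0H24.QW

open MeasureTheory ProbabilityTheory Finset
open Pool.Agent.D0H24.IP

set_option linter.unusedSectionVars false
set_option linter.unusedVariables false

variable {Ω : Type*} [m0 : MeasurableSpace Ω] {P : Measure Ω} {ξ : ℕ → Ω → ℕ}

lemma g_int [IsProbabilityMeasure P] (h : Ber P ξ) (g : ℕ → ℝ) (hg : ∀ n, |g n| ≤ 1) (s : Finset ℕ) :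
    Integrable (fun ω => g (X ξ s ω)) P :=
  Integrable.of_bound ((Measurable.of_discrete (f := g)).comp (X_meas h s)).aestronglyMeasurable 1
    (Filter.Eventually.of_forall fun ω => hg _)

lemma lip1 [IsProbabilityMeasure P] (h : Ber P ξ) (g : ℕ → ℝ) (hg : ∀ n, |g n| ≤ 1) (x t : ℕ) (hxt : x ≤ t)
    (hV : 0 < VV P ξ (Ico x t)) :
    |∫ ω, g (X ξ (Ico x (t + 1)) ω) ∂P - ∫ ω, g (X ξ (Ico x t) ω) ∂P| ≤
      2 / Real.sqrt (VV P ξ (Ico x t)) := by
  have hX : ∀ ω, g (X ξ (Ico x (t + 1)) ω) - g (X ξ (Ico x t) ω) =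
      (ξ t ω : ℝ) * (g (X ξ (Ico x t) ω + 1) - g (X ξ (Ico x t) ω)) := by
    intro ω
    rw [X_succ x t hxt]
    have := h.le t ω
    rcases Nat.eq_zero_or_pos (ξ t ω) with h0 | h0
    · rw [h0]; simp
    · have h1 : ξ t ω = 1 := by omega
      rw [h1]; simp
  have hind := X_indep h (Ico x t) t (by rw [mem_Ico]; omega)
  have h1 : ∫ ω, g (X ξ (Ico x (t + 1)) ω) ∂P - ∫ ω, g (X ξ (Ico x t) ω) ∂P = rho P ξ t *
      (∫ ω, g (X ξ (Ico x t) ω + 1) ∂P - ∫ ω, g (X ξ (Ico x t) ω) ∂P) := by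
    rw [← integral_sub (g_int h g hg _) (g_int h g hg _)]
    simp only [hX]
    have h2 := hind.integral_fun_comp_mul_comp (f := fun n : ℕ => (n : ℝ))
      (g := fun n : ℕ => g (n + 1) - g n)
      (h.meas t).aemeasurable (X_meas h _).aemeasurable Measurable.of_discrete.aestronglyMeasurable
      Measurable.of_discrete.aestronglyMeasurable
    rw [h2, xi_int h t]
    congr 1
    rw [integral_sub (g_int h (fun n => g (n + 1)) (fun n => hg _) _) (g_int h g hg _)]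
  rw [h1, abs_mul, abs_of_nonneg (rho_nonneg t)]
  have h2 := smooth h (Ico x t) g hg hV
  calc _ ≤ 1 * _ := mul_le_mul (rho_le t) h2 (abs_nonneg _) (by norm_num)
    _ = _ := one_mul _

lemma lipj [IsProbabilityMeasure P] (h : Ber P ξ) (g : ℕ → ℝ) (hg : ∀ n, |g n| ≤ 1) (x t : ℕ) (hxt : x ≤ t)
    (v : ℝ) (hv : 0 < v) (hV : v ≤ VV P ξ (Ico x t)) (j : ℕ) :
    ∫ ω, g (X ξ (Ico x t) ω) ∂P - j * (2 / Real.sqrt v) ≤ ∫ ω, g (X ξ (Ico x (t + j)) ω) ∂P := by
  induction j with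
  | zero => simp
  | succ j ih =>
    have hsub : Ico x t ⊆ Ico x (t + j) := Ico_subset_Ico_right (by omega)
    have h4 : v ≤ VV P ξ (Ico x (t + j)) := hV.trans (VV_mono hsub)
    have h5 := lip1 h g hg x (t + j) (by omega) (lt_of_lt_of_le hv h4)
    have h6 : 2 / Real.sqrt (VV P ξ (Ico x (t + j))) ≤ 2 / Real.sqrt v := by
      apply div_le_div_of_nonneg_left (by norm_num) (Real.sqrt_pos.2 hv)
      exact Real.sqrt_le_sqrt h4
    have h7 := (abs_le.1 (h5.trans h6)).1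
    rw [← add_assoc]
    push_cast
    linarith

lemma shiftj [IsProbabilityMeasure P] (h : Ber P ξ) (g : ℕ → ℝ) (hg : ∀ n, |g n| ≤ 1) (s : Finset ℕ)
    (v : ℝ) (hv : 0 < v) (hV : v ≤ VV P ξ s) (j : ℕ) :
    ∫ ω, g (X ξ s ω + j) ∂P - j * (2 / Real.sqrt v) ≤ ∫ ω, g (X ξ s ω) ∂P := by
  induction j with
  | zero => simp
  | succ j ih =>
    have h5 := smooth h s (fun n => g (n + j)) (fun n => hg _) (lt_of_lt_of_le hv hV)
    have h6 : 2 / Real.sqrt (VV P ξ s) ≤ 2 / Real.sqrt v := by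
      apply div_le_div_of_nonneg_left (by norm_num) (Real.sqrt_pos.2 hv)
      exact Real.sqrt_le_sqrt hV
    have h7 := (abs_le.1 (h5.trans h6)).2
    have e : ∀ ω, X ξ s ω + (j + 1) = X ξ s ω + 1 + j := fun ω => by ring
    simp only [e]
    push_cast
    linarith

/-- the probability of success in a window -/
theorem one2 [IsProbabilityMeasure P] (h : Ber P ξ) (x k m : ℕ) (G : Set (ℕ × ℕ)) (lam : ℝ) (HC HD : ℕ)
    (hlam : 0 < lam) (hHC : 1 ≤ HC) (hHD : 1 ≤ HD)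
    (h1 : lam * k ≤ ∑ i ∈ Ico x (x + k), rho P ξ i)
    (h3 : ∀ i ∈ Ico x (x + k), rho P ξ i ≤ 1 / 2)
    (hG : ∀ z, m ≤ z → z ≤ m + k → ∃ c t, (c, t) ∈ G ∧ z < c ∧ c ≤ z + HC ∧ x + k ≤ t ∧
      t < x + k + HD ∧ lam ≤ rho P ξ t)
    (hk2 : 32 * ((HC : ℝ) + HD) ^ 2 * (HC : ℝ) ^ 2 * (HD : ℝ) ^ 2 ≤ lam * k) :
    lam / (2 * HC * HD) ≤ P.real {ω | ∃ t, x ≤ t ∧ t < x + (k + HD) ∧ ξ t ω = 1 ∧
      (m + X ξ (Ico x t) ω + 1, t) ∈ G} := by
  classical
  have hHC0 : (0 : ℝ) < HC := by exact_mod_cast hHC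
  have hHD0 : (0 : ℝ) < HD := by exact_mod_cast hHD
  have hHC1 : (1 : ℝ) ≤ HC := by exact_mod_cast hHC
  have hHD1 : (1 : ℝ) ≤ HD := by exact_mod_cast hHD
  have hlk : 0 < lam * k := lt_of_lt_of_le (by positivity) hk2
  set v := lam * k / 2 with hvdef
  have hv : 0 < v := by rw [hvdef]; linarith
  have hV0 : v ≤ VV P ξ (Ico x (x + k)) := by
    have : (∑ i ∈ Ico x (x + k), rho P ξ i) / 2 ≤ VV P ξ (Ico x (x + k)) := by
      unfold VV
      rw [sum_div]
      apply sum_le_sum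
      intro i hi
      have h5 := h3 i hi
      have h6 := rho_nonneg (P := P) (ξ := ξ) i
      nlinarith
    rw [hvdef]
    linarith
  set g : ℕ → ℕ → ℝ := fun t j => if (m + j + 1, t) ∈ G ∧ lam ≤ rho P ξ t then 1 else 0 with hg
  have hg0 : ∀ t j, 0 ≤ g t j := by
    intro t j
    simp only [hg]
    split_ifs <;> norm_num
  have hg1 : ∀ t j, |g t j| ≤ 1 := by
    intro t j
    simp only [hg]
    split_ifs <;> simp
  have hXk : ∀ ω, X ξ (Ico x (x + k)) ω ≤ k := by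
    intro ω
    have := X_le (P := P) h x (x + k) ω
    omega
  -- the sum over all shifts
  have hpt : ∀ ω, (1 : ℝ) ≤ ∑ α ∈ range HC, ∑ β ∈ range HD, g (x + k + β) (X ξ (Ico x (x + k)) ω + α) := by
    intro ω
    obtain ⟨c, t, a1, a2, a3, a4, a5, a6⟩ := hG (m + X ξ (Ico x (x + k)) ω) (by omega)
      (by have := hXk ω; omega)
    obtain ⟨α, hα⟩ : ∃ α, c = m + (X ξ (Ico x (x + k)) ω + α) + 1 :=
      ⟨c - (m + X ξ (Ico x (x + k)) ω) - 1, by omega⟩
    obtain ⟨β, hβ⟩ : ∃ β, t = x + k + β := ⟨t - (x + k), by omega⟩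
    have hone : g (x + k + β) (X ξ (Ico x (x + k)) ω + α) = 1 := by
      simp only [hg]
      rw [if_pos]
      rw [← hα, ← hβ]
      exact ⟨a1, a6⟩
    rw [← hone]
    calc g (x + k + β) (X ξ (Ico x (x + k)) ω + α) ≤
        ∑ β ∈ range HD, g (x + k + β) (X ξ (Ico x (x + k)) ω + α) :=
          single_le_sum (f := fun β => g (x + k + β) (X ξ (Ico x (x + k)) ω + α))
            (fun i _ => hg0 _ _) (mem_range.2 (by omega))
      _ ≤ _ := single_le_sum
            (f := fun α => ∑ β ∈ range HD, g (x + k + β) (X ξ (Ico x (x + k)) ω + α))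
            (fun i _ => sum_nonneg fun _ _ => hg0 _ _) (mem_range.2 (by omega))
  have hint : ∀ α β, Integrable (fun ω => g (x + k + β) (X ξ (Ico x (x + k)) ω + α)) P := fun α β =>
    g_int h (fun n => g (x + k + β) (n + α)) (fun n => hg1 _ _) _
  have hsum : (1 : ℝ) ≤ ∑ α ∈ range HC, ∑ β ∈ range HD,
      ∫ ω, g (x + k + β) (X ξ (Ico x (x + k)) ω + α) ∂P := by
    have e : ∑ α ∈ range HC, ∑ β ∈ range HD, ∫ ω, g (x + k + β) (X ξ (Ico x (x + k)) ω + α) ∂P =
        ∫ ω, ∑ α ∈ range HC, ∑ β ∈ range HD, g (x + k + β) (X ξ (Ico x (x + k)) ω + α) ∂P := by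
      rw [integral_finsetSum _ (fun α _ => integrable_finsetSum _ fun β _ => hint α β)]
      refine sum_congr rfl fun α _ => ?_
      rw [integral_finsetSum _ (fun β _ => hint α β)]
    rw [e]
    calc (1 : ℝ) = ∫ ω, (1 : ℝ) ∂P := by simp
      _ ≤ _ := by
        apply integral_mono (integrable_const _)
          (integrable_finsetSum _ fun α _ => integrable_finsetSum _ fun β _ => hint α β)
        exact hpt
  obtain ⟨α, hα, β, hβ, hαβ⟩ : ∃ α ∈ range HC, ∃ β ∈ range HD, 1 / ((HC : ℝ) * HD) ≤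
      ∫ ω, g (x + k + β) (X ξ (Ico x (x + k)) ω + α) ∂P := by
    by_contra hcon
    push Not at hcon
    have h4 : ∑ α ∈ range HC, ∑ β ∈ range HD,
        ∫ ω, g (x + k + β) (X ξ (Ico x (x + k)) ω + α) ∂P < ∑ α ∈ range HC, ∑ β ∈ range HD, 1 / ((HC : ℝ) * HD) := by
      apply sum_lt_sum_of_nonempty (nonempty_range_iff.2 (by omega))
      intro α hα
      apply sum_lt_sum_of_nonempty (nonempty_range_iff.2 (by omega))
      intro β hβ
      exact hcon α hα β hβ
    rw [sum_const, sum_const, card_range, card_range, nsmul_eq_mul, nsmul_eq_mul] at h4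
    have e : (HC : ℝ) * ((HD : ℝ) * (1 / ((HC : ℝ) * HD))) = 1 := by
      field_simp
    rw [e] at h4
    linarith
  rw [mem_range] at hα hβ
  have hs1 := shiftj h (g (x + k + β)) (hg1 _) (Ico x (x + k)) v hv hV0 α
  have hs2 := lipj h (g (x + k + β)) (hg1 _) x (x + k) (by omega) v hv hV0 β
  have hsv0 : 0 < Real.sqrt v := Real.sqrt_pos.2 hv
  have hsv : 4 * ((HC : ℝ) + HD) * HC * HD ≤ Real.sqrt v := by
    apply Real.le_sqrt_of_sq_le
    rw [hvdef]
    have e : (4 * ((HC : ℝ) + HD) * HC * HD) ^ 2 = (32 * ((HC : ℝ) + HD) ^ 2 * (HC : ℝ) ^ 2 * (HD : ℝ) ^ 2) / 2 := by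
      ring
    rw [e]
    linarith
  have herr : ((HC : ℝ) + HD) * (2 / Real.sqrt v) ≤ 1 / (2 * (HC * HD)) := by
    rw [mul_div_assoc', div_le_div_iff₀ hsv0 (by positivity)]
    nlinarith
  have hαr : (α : ℝ) ≤ HC := by exact_mod_cast hα.le
  have hβr : (β : ℝ) ≤ HD := by exact_mod_cast hβ.le
  have h2v : 0 ≤ 2 / Real.sqrt v := by positivity
  have he1 : (α : ℝ) * (2 / Real.sqrt v) + (β : ℝ) * (2 / Real.sqrt v) ≤ 1 / (2 * (HC * HD)) := by
    refine le_trans ?_ herr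
    rw [← add_mul]
    exact mul_le_mul_of_nonneg_right (by linarith) h2v
  have hfin : 1 / (2 * ((HC : ℝ) * HD)) ≤ ∫ ω, g (x + k + β) (X ξ (Ico x (x + k + β)) ω) ∂P := by
    have e2 : 1 / ((HC : ℝ) * HD) = 1 / (2 * ((HC : ℝ) * HD)) + 1 / (2 * ((HC : ℝ) * HD)) := by
      field_simp
      ring
    linarith
  set t' := x + k + β with ht'
  -- the probability at `t'` is not small
  have hrho : lam ≤ rho P ξ t' := by
    by_contra hcon
    have hz : ∀ j, g t' j = 0 := by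
      intro j
      simp only [hg]
      rw [if_neg]
      exact fun hc => hcon hc.2
    simp only [hz, integral_zero] at hfin
    have : 0 < 1 / (2 * ((HC : ℝ) * HD)) := by positivity
    linarith
  have hsucc : rho P ξ t' * ∫ ω, g t' (X ξ (Ico x t') ω) ∂P =
      P.real {ω | ξ t' ω = 1 ∧ (m + X ξ (Ico x t') ω + 1, t') ∈ G} := by
    have hind := X_indep h (Ico x t') t' (by rw [mem_Ico]; omega)
    have h4 := hind.integral_fun_comp_mul_comp (f := fun n : ℕ => (n : ℝ)) (g := fun n : ℕ => g t' n)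
      (h.meas t').aemeasurable (X_meas h _).aemeasurable Measurable.of_discrete.aestronglyMeasurable
      Measurable.of_discrete.aestronglyMeasurable
    rw [xi_int h] at h4
    rw [← h4]
    have hs : MeasurableSet {ω | ξ t' ω = 1 ∧ (m + X ξ (Ico x t') ω + 1, t') ∈ G} := by
      have a1 : MeasurableSet {ω | ξ t' ω = 1} := h.meas _ (measurableSet_singleton 1)
      have a2 : MeasurableSet {ω | (m + X ξ (Ico x t') ω + 1, t') ∈ G} :=
        (X_meas h (Ico x t')) (MeasurableSet.of_discrete (s := {n : ℕ | (m + n + 1, t') ∈ G}))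
      exact a1.inter a2
    have e : (fun ω => (ξ t' ω : ℝ) * g t' (X ξ (Ico x t') ω)) =
        Set.indicator {ω | ξ t' ω = 1 ∧ (m + X ξ (Ico x t') ω + 1, t') ∈ G} (fun _ => (1 : ℝ)) := by
      funext ω
      rw [xi_real h]
      simp only [hg]
      rw [Set.indicator_apply]
      simp only [Set.mem_ofPred_eq]
      by_cases a1 : ξ t' ω = 1
      · by_cases a2 : (m + X ξ (Ico x t') ω + 1, t') ∈ G
        · rw [if_pos a1, if_pos ⟨a2, hrho⟩, if_pos ⟨a1, a2⟩, one_mul]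
        · simp [a1, a2]
      · simp [a1]
    rw [e, integral_indicator_const _ hs]
    simp
  calc lam / (2 * HC * HD) = lam * (1 / (2 * ((HC : ℝ) * HD))) := by ring
    _ ≤ rho P ξ t' * ∫ ω, g t' (X ξ (Ico x t') ω) ∂P := mul_le_mul hrho hfin (by positivity) (rho_nonneg _)
    _ = _ := hsucc
    _ ≤ _ := by
      apply measureReal_mono _ (measure_ne_top _ _)
      intro ω hω
      exact ⟨t', by omega, by omega, hω.1, hω.2⟩

end Pool.Agent.D0H24.QW
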