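import Mathlib

/-!
# Local solvability
-/

set_option autoImplicit false

namespace Pool.Agent.D0H24.QW

open Finset

/-- the congruence conditions on `m` and `n` -/
def Adm (m n : ℕ) : Prop := (m = 1 ∧ Even n) ∨ (m = 3 ∧ n % 6 ≠ 1) ∨ m = 2 ∨ 4 ≤ m

/-- an integer prime to `m` in a window of `m` integers, even if `m` is odd -/
lemma window (m n : ℕ) (hA : Adm m n) (hmn : m ≤ n) :
    ∃ r, r < m ∧ Nat.Coprime (n - r) m ∧ (Odd m → Even (n - r)) := by
  have hm0 : 1 ≤ m := by
    rcases hA with ⟨h, -⟩ | ⟨h, -⟩ | h | h <;> omega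
  -- the integer `1` modulo `m`
  have hr1 : (n - 1) % m < m := Nat.mod_lt _ hm0
  have hdm := Nat.div_add_mod (n - 1) m
  have hs1 : n - (n - 1) % m = m * ((n - 1) / m) + 1 := by omega
  have hcop1 : Nat.Coprime (n - (n - 1) % m) m := by
    rw [hs1]
    exact (Nat.coprime_mul_left_add_left 1 m ((n - 1) / m)).2 (Nat.coprime_one_left m)
  by_cases hev : Even m
  · exact ⟨(n - 1) % m, hr1, hcop1, fun h => absurd hev (Nat.not_even_iff_odd.2 h)⟩
  have hodd : Odd m := Nat.not_even_iff_odd.1 hev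
  rcases hA with ⟨rfl, hn⟩ | ⟨rfl, hn⟩ | h2 | h4
  · exact ⟨0, by norm_num, Nat.coprime_one_right _, fun _ => hn⟩
  · have h3 : ∀ r, ¬ 3 ∣ n - r → Nat.Coprime (n - r) 3 := fun r hr =>
      ((Nat.Prime.coprime_iff_not_dvd Nat.prime_three).2 hr).symm
    have h5 : n % 6 = 0 ∨ n % 6 = 2 ∨ n % 6 = 3 ∨ n % 6 = 4 ∨ n % 6 = 5 := by omega
    rcases h5 with h | h | h | h | h
    · exact ⟨2, by norm_num, h3 2 (by omega), fun _ => by rw [Nat.even_iff]; omega⟩
    · exact ⟨0, by norm_num, h3 0 (by omega), fun _ => by rw [Nat.even_iff]; omega⟩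
    · exact ⟨1, by norm_num, h3 1 (by omega), fun _ => by rw [Nat.even_iff]; omega⟩
    · exact ⟨0, by norm_num, h3 0 (by omega), fun _ => by rw [Nat.even_iff]; omega⟩
    · exact ⟨1, by norm_num, h3 1 (by omega), fun _ => by rw [Nat.even_iff]; omega⟩
  · rw [h2] at hev
    exact absurd (by decide) hev
  · have hm5 : 5 ≤ m := by
      rcases Nat.lt_or_ge m 5 with h | h
      · have : m = 4 := by omega
        rw [this] at hev
        exact absurd (by decide) hev
      · exact h
    have key : ∀ r k, n - r + 2 = m * k ∨ n - r = m * k + 2 → Nat.Coprime (n - r) m := by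
      intro r k hk
      apply Nat.coprime_of_dvd
      intro p hp h1 h2
      have h3 : p ∣ 2 := by
        rcases hk with hk | hk
        · rw [← Nat.dvd_add_right h1, hk]
          exact h2.mul_right k
        · rw [← Nat.dvd_add_right (h2.mul_right k), ← hk]
          exact h1
      have h4 : p = 2 := (Nat.prime_dvd_prime_iff_eq hp Nat.prime_two).1 h3
      rw [h4] at h2
      exact hev (even_iff_two_dvd.2 h2)
    by_cases hpar : Even (n - (n - 1) % m)
    · exact ⟨(n - 1) % m, hr1, hcop1, fun _ => hpar⟩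
    · rw [Nat.not_even_iff_odd, Nat.odd_iff] at hpar
      rcases Nat.eq_zero_or_pos ((n - 1) % m) with h0 | h0
      · refine ⟨3, by omega, key 3 ((n - 1) / m) (Or.inl ?_), fun _ => ?_⟩
        · omega
        · rw [Nat.even_iff]
          omega
      · refine ⟨(n - 1) % m - 1, by omega, key _ ((n - 1) / m) (Or.inr ?_), fun _ => ?_⟩
        · omega
        · rw [Nat.even_iff]
          omega

/-- local solvability -/
lemma loc (q : ℕ) (hq : 1 ≤ q) (m n : ℕ) (hA : Adm m n) (hmn : m ≤ n) :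
    ∃ r c0, r < m ∧ Nat.Coprime c0 q ∧
      ∀ c, c % q = c0 % q → m * c + r ≤ n → Nat.Coprime (n - (m * c + r)) q := by
  obtain ⟨r, hr, hcop, hpar⟩ := window m n hA hmn
  set s := n - r with hs
  classical
  set a : ℕ → ℕ := fun p => if m ≡ s [MOD p] then 2 else 1 with ha
  obtain ⟨c0, hc0⟩ := Nat.chineseRemainderOfFinset a (fun p => p) q.primeFactors
    (fun p hp => (Nat.prime_of_mem_primeFactors hp).ne_zero)
    (by
      intro p hp p' hp' hne
      exact (Nat.coprime_primes (Nat.prime_of_mem_primeFactors hp)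
        (Nat.prime_of_mem_primeFactors hp')).2 hne)
  have hc : ∀ p, p.Prime → p ∣ q → c0 ≡ a p [MOD p] := fun p hp hpq =>
    hc0 p (Nat.mem_primeFactors.2 ⟨hp, hpq, by omega⟩)
  have ha1 : ∀ p, p.Prime → ¬ p ∣ a p := by
    intro p hp h
    simp only [ha] at h
    split_ifs at h with h1
    · have h2 : p = 2 := (Nat.prime_dvd_prime_iff_eq hp Nat.prime_two).1 h
      rw [h2] at h1
      by_cases hev : Even m
      · have h3 : ¬ 2 ∣ s := by
          intro hc
          have h4 : 2 ∣ Nat.gcd s m := Nat.dvd_gcd hc (even_iff_two_dvd.1 hev)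
          rw [hcop] at h4
          norm_num at h4
        have h5 : 2 ∣ s := (Nat.ModEq.dvd_iff h1 (dvd_refl 2)).1 (even_iff_two_dvd.1 hev)
        exact h3 h5
      · have h3 := hpar (Nat.not_even_iff_odd.1 hev)
        have h5 : 2 ∣ m := (Nat.ModEq.dvd_iff h1 (dvd_refl 2)).2 (even_iff_two_dvd.1 h3)
        exact hev (even_iff_two_dvd.2 h5)
    · exact hp.one_lt.ne' (Nat.dvd_one.1 h)
  have ha2 : ∀ p, p.Prime → ¬ m * a p ≡ s [MOD p] := by
    intro p hp h
    simp only [ha] at h
    split_ifs at h with h1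
    · have h2 : m + m ≡ m + 0 [MOD p] := by
        have e : m + m = m * 2 := by ring
        rw [e, add_zero]
        exact h.trans h1.symm
      have h3 : m ≡ 0 [MOD p] := Nat.ModEq.add_left_cancel' m h2
      have h4 : p ∣ m := Nat.modEq_zero_iff_dvd.1 h3
      have h5 : p ∣ s := Nat.modEq_zero_iff_dvd.1 (h1.symm.trans h3)
      have h6 := Nat.dvd_gcd h5 h4
      rw [hcop] at h6
      exact hp.one_lt.ne' (Nat.dvd_one.1 h6)
    · rw [mul_one] at h
      exact h1 h
  refine ⟨r, c0, hr, ?_, ?_⟩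
  · apply Nat.coprime_of_dvd
    intro p hp h1 h2
    exact ha1 p hp ((Nat.ModEq.dvd_iff (hc p hp h2) (dvd_refl p)).1 h1)
  · intro c hcc hle
    apply Nat.coprime_of_dvd
    intro p hp h1 h2
    have h3 : c ≡ c0 [MOD p] := Nat.ModEq.of_dvd h2 hcc
    have h4 : m * c + r ≡ n [MOD p] := (Nat.modEq_iff_dvd' hle).2 h1
    have h5 : m * c + r ≡ s + r [MOD p] := by
      have e : s + r = n := by omega
      rw [e]
      exact h4
    have h6 : m * c ≡ s [MOD p] := Nat.ModEq.add_right_cancel' r h5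
    exact ha2 p hp (((h3.trans (hc p hp h2)).mul_left m).symm.trans h6)

end Pool.Agent.D0H24.QW
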