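import Pool.Agent.D0H24.QW.GapQ
import Pool.Agent.D0H24.QW.Loc

/-!
# Small values of `m`
-/

set_option autoImplicit false

namespace Pool.Agent.D0H24.QW

open MeasureTheory ProbabilityTheory Finset Filter
open Pool.Agent.D0H24.IP
open Pool.Agent.D0H24.SR (Fil Fil_mono)
open scoped ENNReal

set_option linter.unusedSectionVars false
set_option linter.unusedVariables false

variable {Ω : Type*} [m0 : MeasurableSpace Ω] {P : Measure Ω} {ξ : ℕ → Ω → ℕ}

lemma Gp_meas (x c t : ℕ) (hc : c < x) (ht : t < x) (hc1 : 1 ≤ c) :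
    MeasurableSet[Fil ξ x] {ω | Gp ξ c t ω} := by
  have e1 : MeasurableSet[Fil ξ x] {ω | ξ t ω = 1} := xi_Fil ht (measurableSet_singleton 1)
  have e2 : MeasurableSet[Fil ξ x] {ω | S ξ t ω + 1 = c} :=
    (X_Fil x (Ico 0 t) (fun i hi => (mem_Ico.1 hi).2.trans ht))
      (MeasurableSet.of_discrete (s := {a : ℕ | a + 1 = c}))
  have e3 : MeasurableSet[Fil ξ x] {ω | ξ c ω = 1} := xi_Fil hc (measurableSet_singleton 1)
  have e4 : MeasurableSet[Fil ξ x] {ω | ξ (t + 1 - c) ω = 1} :=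
    xi_Fil (by omega) (measurableSet_singleton 1)
  exact e1.inter (e2.inter (e3.inter e4))

/-- the condition on the indices -/
def Qz (ξ : ℕ → Ω → ℕ) (q c0 x z W c : ℕ) (ω : Ω) : Prop :=
  (z < c ∧ c ≤ z + W ∧ c % q = c0 % q) ∧ ∃ t < x, Gp ξ c t ω

open Classical in
/-- the good indices in a window -/
noncomputable def Dz (ξ : ℕ → Ω → ℕ) (q c0 x z W : ℕ) (ω : Ω) : Finset ℕ :=
  (range x).filter (fun c => Qz ξ q c0 x z W c ω)

lemma mem_Dz {q c0 x z W c : ℕ} {ω : Ω} : c ∈ Dz ξ q c0 x z W ω ↔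
    c < x ∧ (z < c ∧ c ≤ z + W ∧ c % q = c0 % q) ∧ ∃ t < x, Gp ξ c t ω := by
  classical
  unfold Dz
  rw [mem_filter, mem_range]
  rfl

lemma Dz_meas (q c0 x z W : ℕ) (s : Finset ℕ) :
    MeasurableSet[Fil ξ x] {ω | Dz ξ q c0 x z W ω = s} := by
  unfold Dz
  apply filter_meas2
  intro c hc
  rw [mem_range] at hc
  unfold Qz
  by_cases h1 : z < c ∧ c ≤ z + W ∧ c % q = c0 % q
  · have e : {ω | (z < c ∧ c ≤ z + W ∧ c % q = c0 % q) ∧ ∃ t < x, Gp ξ c t ω} =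
        ⋃ t ∈ Set.Iio x, {ω | Gp ξ c t ω} := by
      ext ω
      simp only [Set.mem_ofPred_eq, Set.mem_iUnion, Set.mem_Iio, exists_prop]
      exact ⟨fun h => h.2, fun h => ⟨h1, h⟩⟩
    rw [e]
    apply MeasurableSet.biUnion (Set.to_countable _)
    intro t ht
    exact Gp_meas x c t hc ht (by omega)
  · have e : {ω | (z < c ∧ c ≤ z + W ∧ c % q = c0 % q) ∧ ∃ t < x, Gp ξ c t ω} = ∅ := by
      ext ω
      simp only [Set.mem_ofPred_eq, Set.mem_empty_iff_false, iff_false]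
      exact fun h => h1 h.1
    rw [e]
    exact @MeasurableSet.empty Ω (Fil ξ x)

/-- independent trials -/
lemma prod_bound [IsProbabilityMeasure P] (h : Ber P ξ) (u : Finset ℕ) (i : ℕ → ℕ)
    (hi : Set.InjOn i (u : Set ℕ)) (lam : ℝ) (hlam1 : lam ≤ 1)
    (hrho : ∀ c ∈ u, lam ≤ rho P ξ (i c)) (B : ℕ) (hB : B ≤ u.card) (hlam : 0 ≤ lam) :
    P {ω | ∀ c ∈ u, ξ (i c) ω ≠ 1} ≤ ENNReal.ofReal ((1 - lam) ^ B) := by
  have e : {ω | ∀ c ∈ u, ξ (i c) ω ≠ 1} = ⋂ j ∈ u.image i, ξ j ⁻¹' {1}ᶜ := by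
    ext ω
    simp only [Set.mem_ofPred_eq, Set.mem_iInter, mem_image, Set.mem_preimage, Set.mem_compl_iff,
      Set.mem_singleton_iff]
    constructor
    · rintro h1 j ⟨c, hc, rfl⟩
      exact h1 c hc
    · intro h1 c hc
      exact h1 (i c) ⟨c, hc, rfl⟩
  rw [e, h.indep.measure_inter_preimage_eq_mul (u.image i)
    (fun j _ => (MeasurableSet.of_discrete (s := ({1}ᶜ : Set ℕ))))]
  have h2 : ∀ j ∈ u.image i, P (ξ j ⁻¹' {1}ᶜ) ≤ ENNReal.ofReal (1 - lam) := by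
    intro j hj
    rw [mem_image] at hj
    obtain ⟨c, hc, rfl⟩ := hj
    have h3 := hrho c hc
    have h4 : P.real (ξ (i c) ⁻¹' {1}ᶜ) = 1 - rho P ξ (i c) := by
      rw [Set.preimage_compl, measureReal_compl ((h.meas _) (measurableSet_singleton 1))]
      simp only [probReal_univ]
      rfl
    rw [← ENNReal.ofReal_toReal (measure_ne_top P (ξ (i c) ⁻¹' {1}ᶜ))]
    apply ENNReal.ofReal_le_ofReal
    have h5 : (P (ξ (i c) ⁻¹' {1}ᶜ)).toReal = 1 - rho P ξ (i c) := h4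
    rw [h5]
    linarith
  calc ∏ j ∈ u.image i, P (ξ j ⁻¹' {1}ᶜ) ≤ ∏ j ∈ u.image i, ENNReal.ofReal (1 - lam) :=
        prod_le_prod' h2
    _ = ENNReal.ofReal (1 - lam) ^ u.card := by
        rw [prod_const, card_image_of_injOn hi]
    _ = ENNReal.ofReal ((1 - lam) ^ u.card) := (ENNReal.ofReal_pow (by linarith) _).symm
    _ ≤ ENNReal.ofReal ((1 - lam) ^ B) := by
        apply ENNReal.ofReal_le_ofReal
        exact pow_le_pow_of_le_one (by linarith) (by linarith) hB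

/-- the failure of a block -/
def BadF (ξ : ℕ → Ω → ℕ) (q c0 r m n x z W B : ℕ) : Set Ω :=
  {ω | B ≤ (Dz ξ q c0 x z W ω).card} ∩
    {ω | ω ∈ (fun u : Finset ℕ => {ω' | ∀ c ∈ u, x ≤ n - (m * c + r) → ξ (n - (m * c + r)) ω' ≠ 1})
      (Dz ξ q c0 x z W ω)}

lemma BadF_le [IsProbabilityMeasure P] (h : Ber P ξ) (q c0 r m n x z W B : ℕ) (lam : ℝ) (hlam : 0 ≤ lam)
    (hlam1 : lam ≤ 1) (hm : 1 ≤ m) (hcond : x + (m * (z + W) + r) ≤ n)
    (hcop : ∀ c, c % q = c0 % q → m * c + r ≤ n → Nat.Coprime (n - (m * c + r)) q)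
    (hrho : ∀ i, x ≤ i → i ≤ n → Nat.Coprime i q → lam ≤ rho P ξ i) :
    P (BadF ξ q c0 r m n x z W B) ≤ ENNReal.ofReal ((1 - lam) ^ B) := by
  have h1 := spl h x (Dz ξ q c0 x z W) (Dz_meas q c0 x z W) {ω | B ≤ (Dz ξ q c0 x z W ω).card}
    (fin_meas (Fil ξ x) (Dz ξ q c0 x z W) (Dz_meas q c0 x z W) (fun u => B ≤ u.card))
    (fun u : Finset ℕ => {ω' | ∀ c ∈ u, x ≤ n - (m * c + r) → ξ (n - (m * c + r)) ω' ≠ 1})
    (by
      intro u
      simp only [Set.ofPred_forall]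
      apply MeasurableSet.iInter
      intro c
      apply MeasurableSet.iInter
      intro _
      apply MeasurableSet.iInter
      intro hx
      apply MeasurableSet.compl
      exact xi_Fut hx (measurableSet_singleton 1))
    (ENNReal.ofReal ((1 - lam) ^ B))
    (by
      rintro u ⟨ω, hω, rfl⟩
      rw [Set.mem_ofPred_eq] at hω
      have hle : ∀ c ∈ Dz ξ q c0 x z W ω, m * c ≤ m * (z + W) := fun c hc =>
        Nat.mul_le_mul_left _ (mem_Dz.1 hc).2.1.2.1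
      refine le_trans (measure_mono ?_) (prod_bound h (Dz ξ q c0 x z W ω) (fun c => n - (m * c + r))
        ?_ lam hlam1 ?_ B hω hlam)
      · intro ω' hω' c hc
        have := hle c hc
        exact hω' c hc (by omega)
      · intro c hc c' hc' hcc
        simp only at hcc
        have h2 := hle c hc
        have h3 := hle c' hc'
        exact Nat.eq_of_mul_eq_mul_left hm (by omega)
      · intro c hc
        have h2 := hle c hc
        exact hrho _ (by omega) (by omega) (hcop c (mem_Dz.1 hc).2.1.2.2 (by omega)))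
  refine h1.trans ?_
  calc ENNReal.ofReal ((1 - lam) ^ B) * P {ω | B ≤ (Dz ξ q c0 x z W ω).card} ≤
      ENNReal.ofReal ((1 - lam) ^ B) * 1 := mul_le_mul' le_rfl prob_le_one
    _ = _ := mul_one _

/-- the number of trials -/
def Bn (κ n : ℕ) : ℕ := Lam n ^ (κ + 3)

lemma nat_le_exp (n : ℕ) : (n : ℝ) ≤ Real.exp (Lam n) := by
  have e8 : (n : ℝ) ≤ 2 ^ Lam n := by exact_mod_cast (lt_two_pow_Lam n).le
  have e9 : (2 : ℝ) ^ Lam n ≤ Real.exp 1 ^ Lam n :=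
    pow_le_pow_left₀ (by norm_num) (by linarith [Real.exp_one_gt_d9]) _
  rw [← Real.exp_nat_mul, mul_one] at e9
  exact e8.trans e9

lemma small_prob (κ n : ℕ) (hn : 1 ≤ n) (hL : 6 ≤ Lam n) :
    (1 - 1 / (Lam n : ℝ) ^ (κ + 1)) ^ (Bn κ n) ≤ 1 / (n : ℝ) ^ 6 := by
  have hL0 : (0 : ℝ) < Lam n := by exact_mod_cast Lam_pos n
  have hL1 : (1 : ℝ) ≤ Lam n := by exact_mod_cast Lam_pos n
  have hL6 : (6 : ℝ) ≤ Lam n := by exact_mod_cast hL
  have hn0 : (0 : ℝ) < n := by exact_mod_cast hn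
  set δ := 1 / (Lam n : ℝ) ^ (κ + 1) with hδ
  have hδ1 : δ ≤ 1 := by
    rw [hδ, div_le_one (by positivity)]
    exact one_le_pow₀ hL1
  have hδ2 : 1 - δ ≤ Real.exp (-δ) := by
    have := Real.add_one_le_exp (-δ)
    linarith
  have hδ3 : δ * ((Bn κ n : ℕ) : ℝ) = (Lam n : ℝ) ^ 2 := by
    rw [hδ]
    unfold Bn
    push_cast
    field_simp
    ring
  calc (1 - δ) ^ (Bn κ n) ≤ Real.exp (-δ) ^ (Bn κ n) := pow_le_pow_left₀ (by linarith) hδ2 _
    _ = Real.exp (-((Lam n : ℝ) ^ 2)) := by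
        rw [← Real.exp_nat_mul, ← hδ3]
        congr 1
        ring
    _ ≤ 1 / (n : ℝ) ^ 6 := by
        rw [Real.exp_neg, ← one_div]
        apply one_div_le_one_div_of_le (by positivity)
        calc (n : ℝ) ^ 6 ≤ Real.exp (Lam n) ^ 6 := pow_le_pow_left₀ hn0.le (nat_le_exp n) 6
          _ = Real.exp (6 * Lam n) := by
              rw [← Real.exp_nat_mul]
              norm_num
          _ ≤ _ := by
              apply Real.exp_le_exp.2
              nlinarith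

/-- every window with many good indices has a solution -/
theorem finA [IsProbabilityMeasure P] {q κ : ℕ} (hq : 1 ≤ q) (h : Mod P ξ q κ) (W : ℕ → ℕ) :
    ∀ᵐ ω ∂P, ∀ᶠ n in atTop, ∀ m, 1 ≤ m → m ≤ n → Adm m n → ∃ r c0, r < m ∧ Nat.Coprime c0 q ∧
      ∀ z, (n + 1) / 2 + (m * (z + W n) + r) ≤ n → Bn κ n ≤ (Dz ξ q c0 ((n + 1) / 2) z (W n) ω).card →
        ∃ c ∈ Dz ξ q c0 ((n + 1) / 2) z (W n) ω, ξ (n - (m * c + r)) ω = 1 := by
  have hres : ∀ m n, ∃ r c0, Adm m n → m ≤ n → r < m ∧ Nat.Coprime c0 q ∧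
      ∀ c, c % q = c0 % q → m * c + r ≤ n → Nat.Coprime (n - (m * c + r)) q := by
    intro m n
    by_cases hA : Adm m n ∧ m ≤ n
    · obtain ⟨r, c0, h1⟩ := loc q hq m n hA.1 hA.2
      exact ⟨r, c0, fun _ _ => h1⟩
    · exact ⟨0, 0, fun a b => absurd ⟨a, b⟩ hA⟩
  choose r c0 hrc using hres
  classical
  have hbad : ∀ᵐ ω ∂P, ∀ᶠ n in atTop,
      ω ∉ ⋃ p ∈ ((range (n + 1)) ×ˢ (range (n + 1))).filter (fun p : ℕ × ℕ => 1 ≤ p.1 ∧ p.1 ≤ n ∧
        Adm p.1 n ∧ (n + 1) / 2 + (p.1 * (p.2 + W n) + r p.1 n) ≤ n),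
        BadF ξ q (c0 p.1 n) (r p.1 n) p.1 n ((n + 1) / 2) p.2 (W n) (Bn κ n) := by
    apply bc _ (fun n : ℕ => 4 * (1 / (n : ℝ) ^ 4))
      ((Real.summable_one_div_nat_pow.2 (by norm_num)).mul_left 4) (fun n => by positivity)
    obtain ⟨x₀, hx₀⟩ := eventually_atTop.1 (rho_low h)
    filter_upwards [eventually_ge_atTop (2 * x₀ + 2), tendsto_Lam.eventually_ge_atTop 6] with n hn hL
    have hn1 : 1 ≤ n := by omega
    have hn0 : (0 : ℝ) < n := by exact_mod_cast hn1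
    have hL0 : (0 : ℝ) < Lam n := by exact_mod_cast Lam_pos n
    have hL1 : (1 : ℝ) ≤ Lam n := by exact_mod_cast Lam_pos n
    have h1 : ∀ p ∈ ((range (n + 1)) ×ˢ (range (n + 1))).filter (fun p : ℕ × ℕ => 1 ≤ p.1 ∧ p.1 ≤ n ∧
        Adm p.1 n ∧ (n + 1) / 2 + (p.1 * (p.2 + W n) + r p.1 n) ≤ n),
        P (BadF ξ q (c0 p.1 n) (r p.1 n) p.1 n ((n + 1) / 2) p.2 (W n) (Bn κ n)) ≤
          ENNReal.ofReal (1 / (n : ℝ) ^ 6) := by
      rintro ⟨m, z⟩ hp
      rw [mem_filter] at hp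
      simp only at hp ⊢
      obtain ⟨-, hm1, hmn, hA, hcond⟩ := hp
      obtain ⟨hr1, hr2, hr3⟩ := hrc m n hA hmn
      refine (BadF_le h.ber q (c0 m n) (r m n) m n ((n + 1) / 2) z (W n) (Bn κ n)
        (1 / (Lam n : ℝ) ^ (κ + 1)) (by positivity) ?_ hm1 hcond hr3 ?_).trans ?_
      · rw [div_le_one (by positivity)]
        exact one_le_pow₀ hL1
      · intro i hi1 hi2 hi3
        refine le_trans ?_ (hx₀ ((n + 1) / 2) (by omega) i hi1 (by omega) hi3)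
        have hLx : (Lam ((n + 1) / 2) : ℝ) ≤ Lam n := by exact_mod_cast Lam_mono (by omega)
        have hLx0 : (0 : ℝ) < Lam ((n + 1) / 2) := by exact_mod_cast Lam_pos _
        exact one_div_le_one_div_of_le (by positivity) (pow_le_pow_left₀ hLx0.le hLx _)
      · exact ENNReal.ofReal_le_ofReal (small_prob κ n hn1 hL)
    refine (measure_biUnion_finset_le _ _).trans ((sum_le_sum h1).trans ?_)
    rw [sum_const, nsmul_eq_mul]
    have h3 : (((((range (n + 1)) ×ˢ (range (n + 1))).filter (fun p : ℕ × ℕ => 1 ≤ p.1 ∧ p.1 ≤ n ∧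
        Adm p.1 n ∧ (n + 1) / 2 + (p.1 * (p.2 + W n) + r p.1 n) ≤ n)).card : ℕ) : ℝ≥0∞) ≤
        (((2 * n) ^ 2 : ℕ) : ℝ≥0∞) := by
      have : (((range (n + 1)) ×ˢ (range (n + 1))).filter (fun p : ℕ × ℕ => 1 ≤ p.1 ∧ p.1 ≤ n ∧
        Adm p.1 n ∧ (n + 1) / 2 + (p.1 * (p.2 + W n) + r p.1 n) ≤ n)).card ≤ (2 * n) ^ 2 := by
        refine (card_filter_le _ _).trans ?_
        rw [card_product, card_range, sq]
        exact Nat.mul_le_mul (by omega) (by omega)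
      exact_mod_cast this
    calc _ ≤ (((2 * n) ^ 2 : ℕ) : ℝ≥0∞) * ENNReal.ofReal (1 / (n : ℝ) ^ 6) := mul_le_mul' h3 le_rfl
      _ = ENNReal.ofReal (((2 * n) ^ 2 : ℕ) * (1 / (n : ℝ) ^ 6)) := by
          rw [ENNReal.ofReal_mul (Nat.cast_nonneg _), ENNReal.ofReal_natCast]
      _ ≤ _ := by
          apply ENNReal.ofReal_le_ofReal
          apply le_of_eq
          push_cast
          field_simp
          ring
  filter_upwards [hbad] with ω hω
  filter_upwards [hω, eventually_ge_atTop 2] with n hn hn2 m hm1 hmn hA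
  obtain ⟨hr1, hr2, hr3⟩ := hrc m n hA hmn
  refine ⟨r m n, c0 m n, hr1, hr2, ?_⟩
  intro z hz hB
  by_contra hcon
  push Not at hcon
  apply hn
  rw [Set.mem_iUnion₂]
  refine ⟨(m, z), ?_, hB, fun c hc _ => hcon c hc⟩
  rw [mem_filter, mem_product, mem_range, mem_range]
  have h5 : 1 * (z + W n) ≤ m * (z + W n) := Nat.mul_le_mul_right _ hm1
  exact ⟨⟨by omega, by simp only; omega⟩, hm1, hmn, hA, hz⟩

end Pool.Agent.D0H24.QW
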