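import Pool.Agent.D0H24.QW.Mul2

/-!
# Members `c` with `p_c - c + 1` a member, in residue classes, with short gaps
-/

set_option autoImplicit false

namespace Pool.Agent.D0H24.QW

open MeasureTheory ProbabilityTheory Finset Filter
open Pool.Agent.D0H24.IP
open Pool.Agent.D0H24.SR (Fil Fil_mono)
open scoped ENNReal

set_option linter.unusedSectionVars false
set_option linter.unusedVariables false

variable {Ω : Type*} [m0 : MeasurableSpace Ω] {P : Measure Ω} {ξ : ℕ → Ω → ℕ}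

open Classical in
lemma filter_meas2 {α : Type*} (m : MeasurableSpace Ω) (T : Finset α) (Q : α → Ω → Prop)
    (hQ : ∀ c ∈ T, MeasurableSet[m] {ω | Q c ω}) (s : Finset α) :
    MeasurableSet[m] {ω | T.filter (fun c => Q c ω) = s} := by
  by_cases hs : s ⊆ T
  · have e : {ω | T.filter (fun c => Q c ω) = s} =
        ⋂ c ∈ T, {ω | Q c ω ↔ c ∈ s} := by
      ext ω
      simp only [Set.mem_ofPred_eq, Set.mem_iInter]
      constructor
      · intro hω c hc
        rw [← hω, mem_filter]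
        exact ⟨fun a => ⟨hc, a⟩, fun a => a.2⟩
      · intro hω
        ext c
        rw [mem_filter]
        constructor
        · rintro ⟨a, b⟩
          exact (hω c a).1 b
        · intro a
          have := hs a
          exact ⟨this, (hω c this).2 a⟩
    rw [e]
    apply Finset.measurableSet_biInter
    intro c hc
    by_cases hcs : c ∈ s
    · simp only [hcs, iff_true]
      exact hQ c hc
    · simp only [hcs, iff_false]
      exact (hQ c hc).compl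
  · have e : {ω | T.filter (fun c => Q c ω) = s} = ∅ := by
      ext ω
      rw [Set.mem_ofPred_eq, Set.mem_empty_iff_false, iff_false]
      rintro rfl
      exact hs (filter_subset _ _)
    rw [e]
    exact @MeasurableSet.empty Ω m

/-- `c` is a member, its number being `c` the member `t`, and `t - c + 1` is a member -/
def Gp (ξ : ℕ → Ω → ℕ) (c t : ℕ) (ω : Ω) : Prop :=
  ξ t ω = 1 ∧ S ξ t ω + 1 = c ∧ ξ c ω = 1 ∧ ξ (t + 1 - c) ω = 1

/-- the condition on the pairs -/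
def Qr (ξ : ℕ → Ω → ℕ) (q r x : ℕ) (p : ℕ × ℕ) (ω : Ω) : Prop :=
  (p.1 % q = r % q ∧ p.2 + 1 - p.1 < x ∧ (p.2 + 1 - p.1) % q = 1 % q) ∧
    ξ p.1 ω = 1 ∧ ξ (p.2 + 1 - p.1) ω = 1

open Classical in
/-- the relation -/
noncomputable def Gr (ξ : ℕ → Ω → ℕ) (q r x : ℕ) (ω : Ω) : Finset (ℕ × ℕ) :=
  ((range x) ×ˢ (range (2 * x))).filter (fun p => Qr ξ q r x p ω)

lemma mem_Gr {q r x c t : ℕ} {ω : Ω} : (c, t) ∈ Gr ξ q r x ω ↔
    (c < x ∧ t < 2 * x) ∧ (c % q = r % q ∧ t + 1 - c < x ∧ (t + 1 - c) % q = 1 % q) ∧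
    ξ c ω = 1 ∧ ξ (t + 1 - c) ω = 1 := by
  classical
  unfold Gr
  rw [mem_filter, mem_product, mem_range, mem_range]
  rfl

lemma Gr_meas (q r x : ℕ) (s : Finset (ℕ × ℕ)) :
    MeasurableSet[Fil ξ x] {ω | Gr ξ q r x ω = s} := by
  unfold Gr
  apply filter_meas2
  rintro ⟨c, t⟩ hct
  rw [mem_product, mem_range, mem_range] at hct
  unfold Qr
  by_cases h1 : c % q = r % q ∧ t + 1 - c < x ∧ (t + 1 - c) % q = 1 % q
  · have e : {ω | (c % q = r % q ∧ t + 1 - c < x ∧ (t + 1 - c) % q = 1 % q) ∧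
        ξ c ω = 1 ∧ ξ (t + 1 - c) ω = 1} = {ω | ξ c ω = 1} ∩ {ω | ξ (t + 1 - c) ω = 1} := by
      ext ω
      simp only [Set.mem_ofPred_eq, Set.mem_inter_iff]
      exact ⟨fun h => h.2, fun h => ⟨h1, h⟩⟩
    simp only
    rw [e]
    exact MeasurableSet.inter (xi_Fil hct.1 (measurableSet_singleton 1))
      (xi_Fil h1.2.1 (measurableSet_singleton 1))
  · have e : {ω | (c % q = r % q ∧ t + 1 - c < x ∧ (t + 1 - c) % q = 1 % q) ∧
        ξ c ω = 1 ∧ ξ (t + 1 - c) ω = 1} = ∅ := by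
      ext ω
      simp only [Set.mem_ofPred_eq, Set.mem_empty_iff_false, iff_false]
      exact fun h => h1 h.1
    simp only
    rw [e]
    exact @MeasurableSet.empty Ω (Fil ξ x)

/-- windows with members -/
lemma win_count (ω : Ω) (a V J : ℕ)
    (hw : ∀ j < J, ∃ t, a + j * V ≤ t ∧ t < a + (j + 1) * V ∧ ξ t ω = 1) :
    J ≤ X ξ (Ico a (a + J * V)) ω := by
  induction J with
  | zero => exact Nat.zero_le _
  | succ J ih =>
    have h1 := ih (fun j hj => hw j (by omega))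
    have e1 : (J + 1) * V = J * V + V := by ring
    have h2 : X ξ (Ico a (a + (J + 1) * V)) ω =
        X ξ (Ico a (a + J * V)) ω + X ξ (Ico (a + J * V) (a + (J + 1) * V)) ω := by
      unfold X
      exact (sum_Ico_consecutive (fun i => ξ i ω) (by omega) (by omega)).symm
    obtain ⟨t, t1, t2, t3⟩ := hw J (by omega)
    have h3 : 1 ≤ X ξ (Ico (a + J * V) (a + (J + 1) * V)) ω := by
      unfold X
      calc 1 = ξ t ω := t3.symm
        _ ≤ _ := single_le_sum (f := fun i => ξ i ω) (fun i _ => Nat.zero_le _) (mem_Ico.2 ⟨t1, t2⟩)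
    omega

/-- a lower bound for the number of members -/
lemma S_low [IsProbabilityMeasure P] {q K : ℕ} (hG : Gap P ξ q 1 K) :
    ∀ᵐ ω ∂P, ∀ᶠ x in atTop, x ≤ 8 * Lam x ^ K * S ξ x ω := by
  filter_upwards [hG] with ω h1
  obtain ⟨x₀, hx₀⟩ := eventually_atTop.1 h1
  filter_upwards [Lam_pow_le K 8, eventually_ge_atTop (2 * x₀)] with x h2 h3
  set V := Lam x ^ K with hV
  have hV1 : 1 ≤ V := Nat.pow_pos (Lam_pos x)
  set a := x - x / 2 with ha
  set J := (x / 2) / V with hJ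
  have hJV : J * V ≤ x / 2 := Nat.div_mul_le_self _ _
  have hJ2 : x / 2 < (J + 1) * V := by
    have := Nat.lt_div_mul_add (a := x / 2) hV1
    have e : (J + 1) * V = J * V + V := by ring
    rw [e]
    exact this
  have h4 : J ≤ X ξ (Ico a (a + J * V)) ω := by
    apply win_count
    intro j hj
    have h5 : (j + 1) * V ≤ J * V := Nat.mul_le_mul_right _ hj
    have e2 : (j + 1) * V = j * V + V := by ring
    obtain ⟨t, t1, t2, -, t4⟩ := hx₀ (a + j * V) (by omega) 1 (Nat.coprime_one_left q)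
    have h6 : Lam (a + j * V) ^ K ≤ V := Nat.pow_le_pow_left (Lam_mono (by omega)) K
    exact ⟨t, t1, by omega, t4.1⟩
  have h7 : X ξ (Ico a (a + J * V)) ω ≤ S ξ x ω := by
    unfold S X
    apply sum_le_sum_of_subset
    intro i hi
    rw [mem_Ico] at hi ⊢
    omega
  have hJ1 : 1 ≤ J := by
    by_contra hc
    have : J = 0 := Nat.lt_one_iff.1 (not_le.1 hc)
    rw [this] at hJ2
    omega
  have h8 : J ≤ S ξ x ω := h4.trans h7
  have e3 : (J + 1) * V = J * V + V := by ring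
  have h9 : V ≤ J * V := Nat.le_mul_of_pos_left _ hJ1
  have h10 : J * V ≤ S ξ x ω * V := Nat.mul_le_mul_right _ h8
  have e4 : 8 * V * S ξ x ω = 8 * (S ξ x ω * V) := by ring
  rw [e4]
  omega

/-- good pairs in short windows -/
theorem gapG [IsProbabilityMeasure P] {q κ : ℕ} (hq : 1 ≤ q) (h : Mod P ξ q κ) :
    ∃ M, ∀ᵐ ω ∂P, ∀ᶠ x in atTop, ∀ r, Nat.Coprime r q →
      ∃ c t, x ≤ t ∧ t < x + Lam x ^ M ∧ c % q = r % q ∧ c < x ∧ Gp ξ c t ω := by
  obtain ⟨K, hK1, hG, -⟩ := gaps hq h 1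
  obtain ⟨M, hM⟩ : ∃ M, M = 8 * K + 2 * (κ + 2) + 6 := ⟨_, rfl⟩
  refine ⟨M, ?_⟩
  have hbad : ∀ᵐ ω ∂P, ∀ r : ℕ, ∀ᶠ x in atTop,
      ω ∉ Gd2 P ξ (Gr ξ q r x) x (L2 K (κ + 2) x) (Lam x ^ K) (Lam x ^ K) (1 / (Lam x : ℝ) ^ (κ + 2)) ∩
        NS2 ξ (Gr ξ q r x) x (x + L2 K (κ + 2) x) := by
    rw [ae_all_iff]
    intro r
    apply bc _ (fun x => 1 / (x : ℝ) ^ 4) (Real.summable_one_div_nat_pow.2 (by norm_num))
      (fun n => by positivity)
    filter_upwards [bound2 hq h K] with x hx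
    exact hx _ (Gr_meas q r x)
  filter_upwards [hbad, hG, S_small h.ber h.small, S_low hG] with ω hω hg hS hSl
  have hω2 : ∀ᶠ x in atTop, ∀ r ∈ range q,
      ω ∉ Gd2 P ξ (Gr ξ q r x) x (L2 K (κ + 2) x) (Lam x ^ K) (Lam x ^ K) (1 / (Lam x : ℝ) ^ (κ + 2)) ∩
        NS2 ξ (Gr ξ q r x) x (x + L2 K (κ + 2) x) :=
    (eventually_all_finset (range q)).2 fun r _ => hω r
  obtain ⟨x₀, hx₀⟩ := eventually_atTop.1 hg
  filter_upwards [hω2, hS, hSl, rho_low h, Lam_pow_le (M + K) 32,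
    tendsto_Lam.eventually_ge_atTop (x₀ + 3), eventually_ge_atTop (8 * x₀ + 8)] with x h1 h2 h3 h4 h5 h6 h7 r hr
  have hL0 : 1 ≤ Lam x := Lam_pos x
  have hLL : L2 K (κ + 2) x ≤ Lam x ^ M := by
    rw [hM]
    exact L2_le K (κ + 2) x (by omega)
  have hKM : Lam x ^ K ≤ Lam x ^ M := Nat.pow_le_pow_right hL0 (by omega)
  have hLM : Lam x ≤ Lam x ^ M := Nat.le_self_pow (by omega) _
  have hMK : Lam x ^ M ≤ Lam x ^ (M + K) := Nat.pow_le_pow_right hL0 (by omega)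
  have hS4 : 4 * Lam x ^ M ≤ S ξ x ω := by
    have a1 : 32 * Lam x ^ (M + K) ≤ 8 * Lam x ^ K * S ξ x ω := h5.trans h3
    have a2 : 32 * Lam x ^ (M + K) = 8 * Lam x ^ K * (4 * Lam x ^ M) := by
      rw [pow_add]
      ring
    rw [a2] at a1
    exact Nat.le_of_mul_le_mul_left a1 (by positivity)
  have hmod : (r % q) % q = r % q := Nat.mod_mod _ _
  have h8 := h1 (r % q) (mem_range.2 (Nat.mod_lt r hq))
  have hGd : ω ∈ Gd2 P ξ (Gr ξ q (r % q) x) x (L2 K (κ + 2) x) (Lam x ^ K) (Lam x ^ K)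
      (1 / (Lam x : ℝ) ^ (κ + 2)) := by
    intro z y z1 z2 y1 y2
    obtain ⟨c, c1, c2, c3, c4⟩ := hx₀ (z + 1) (by omega) r hr
    have hLz : Lam (z + 1) ^ K ≤ Lam x ^ K := Nat.pow_le_pow_left (Lam_mono (by omega)) K
    obtain ⟨w, hw⟩ : ∃ w, w + c = y + 1 := ⟨y + 1 - c, by omega⟩
    obtain ⟨m', m1, m2, m3, m4⟩ := hx₀ w (by omega) 1 (Nat.coprime_one_left q)
    have hLw : Lam w ^ K ≤ Lam x ^ K := Nat.pow_le_pow_left (Lam_mono (by omega)) K
    have e1 : m' + c - 1 + 1 - c = m' := by omega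
    refine ⟨c, m' + c - 1, ?_, by omega, by omega, by omega, by omega, ?_⟩
    · rw [mem_Gr, e1, hmod]
      exact ⟨⟨by omega, by omega⟩, ⟨c3, by omega, m3⟩, c4.1, m4.1⟩
    · refine le_trans ?_ (h4 (m' + c - 1) (by omega) (by omega) ?_)
      · apply one_div_le_one_div_of_le
        · have : (0 : ℝ) < Lam x := by exact_mod_cast Lam_pos x
          positivity
        · have : (1 : ℝ) ≤ Lam x := by exact_mod_cast Lam_pos x
          exact pow_le_pow_right₀ this (by omega)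
      · have b1 : m' + c - 1 + 1 ≡ c + 1 [MOD q] := by
          have b2 : m' + c - 1 + 1 = c + m' := by omega
          rw [b2]
          exact Nat.ModEq.add_left c m3
        have b3 : m' + c - 1 ≡ c [MOD q] := Nat.ModEq.add_right_cancel' 1 b1
        have b4 : (m' + c - 1) % q = r % q := by
          rw [← c3]
          exact b3
        exact coprime_mod b4 hr
  have h9 : ¬ ω ∈ NS2 ξ (Gr ξ q (r % q) x) x (x + L2 K (κ + 2) x) := fun hc => h8 ⟨hGd, hc⟩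
  unfold NS2 at h9
  rw [Set.mem_ofPred_eq] at h9
  push Not at h9
  obtain ⟨t, t1, t2, t3, t4⟩ := h9
  rw [mem_Gr, hmod] at t4
  exact ⟨S ξ t ω + 1, t, t1, by omega, t4.2.1.1, t4.1.1, t3, rfl, t4.2.2.1, t4.2.2.2⟩

lemma S_succ_le (h : Ber P ξ) (ω : Ω) (t : ℕ) : S ξ (t + 1) ω ≤ S ξ t ω + 1 := by
  rw [S_split t (t + 1) (by omega) ω]
  have := X_le (P := P) h t (t + 1) ω
  omega

lemma Lam_sq (z : ℕ) : Lam (z ^ 2) ≤ 2 * Lam z := by
  rcases Nat.eq_zero_or_pos z with hz | hz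
  · rw [hz]
    have := Lam_pos 0
    norm_num
    omega
  have h1 := lt_two_pow_Lam z
  have h2 : z ^ 2 < 2 ^ (2 * Lam z) := by
    rw [mul_comm, pow_mul]
    exact Nat.pow_lt_pow_left h1 (by norm_num)
  have h3 : Nat.log 2 (z ^ 2) < 2 * Lam z := Nat.log_lt_of_lt_pow (by positivity) h2
  unfold Lam at h3 ⊢
  omega

/-- good pairs with an index in a short window -/
theorem gapI [IsProbabilityMeasure P] {q κ : ℕ} (hq : 1 ≤ q) (h : Mod P ξ q κ) :
    ∃ A, ∀ᵐ ω ∂P, ∀ᶠ z in atTop, ∀ r, Nat.Coprime r q →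
      ∃ c t, z < c ∧ c ≤ z + Lam z ^ A ∧ c % q = r % q ∧ t < z * Lam z ^ A ∧ Gp ξ c t ω := by
  obtain ⟨M, hM⟩ := gapG hq h
  obtain ⟨K, hK1, hG, -⟩ := gaps hq h 1
  refine ⟨M + K + 1, ?_⟩
  filter_upwards [hM, S_low hG, S_tendsto hq h] with ω h1 h2 h3
  obtain ⟨x₁, hx₁⟩ := eventually_atTop.1 h1
  obtain ⟨x₂, hx₂⟩ := eventually_atTop.1 h2
  obtain ⟨x₃, hx₃⟩ := eventually_atTop.1 (Lam_pow_le (2 * K) 64)
  obtain ⟨x₄, hx₄⟩ := eventually_atTop.1 (Lam_pow_le M 1)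
  filter_upwards [eventually_ge_atTop (x₁ + x₂ + x₃ + x₄ + 1),
    tendsto_Lam.eventually_ge_atTop (16 * 2 ^ K + 2 ^ M)] with z hz hL r hr
  -- the time with `S = z`
  obtain ⟨y, hy⟩ := (h3 (z + 1)).exists
  have hS0 : S ξ 0 ω = 0 := by
    unfold S X
    simp
  obtain ⟨x, -, -, hx⟩ := ivt (fun t => S ξ t ω) (fun t => S_succ_le h.ber ω t) 0 y z
    (by simp [hS0]) (by rw [zero_add]; exact hy)
  have hzx : z ≤ x := by
    have := X_le (P := P) h.ber 0 x ω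
    unfold S at hx
    omega
  have hb := hx₂ x (by omega)
  rw [hx] at hb
  have hx0 : 0 < x := by omega
  have hxz : x ≤ z ^ 2 := by
    have a1 := hx₃ x (by omega)
    have a2 : x * x ≤ (8 * Lam x ^ K * z) * (8 * Lam x ^ K * z) := Nat.mul_le_mul hb hb
    have a3 : (8 * Lam x ^ K * z) * (8 * Lam x ^ K * z) = 64 * Lam x ^ (2 * K) * z ^ 2 := by
      rw [mul_comm 2 K, pow_mul]
      ring
    have a4 : 64 * Lam x ^ (2 * K) * z ^ 2 ≤ x * z ^ 2 := Nat.mul_le_mul_right _ a1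
    exact Nat.le_of_mul_le_mul_left (a2.trans (a3.le.trans a4)) hx0
  have hLx : Lam x ≤ 2 * Lam z := (Lam_mono hxz).trans (Lam_sq z)
  have hLz : 1 ≤ Lam z := Lam_pos z
  obtain ⟨c, t, t1, t2, c3, c4, hgood⟩ := hx₁ x (by omega) r hr
  have hpM : Lam x ^ M ≤ Lam z ^ (M + 1) := by
    calc Lam x ^ M ≤ (2 * Lam z) ^ M := Nat.pow_le_pow_left hLx M
      _ = 2 ^ M * Lam z ^ M := Nat.mul_pow _ _ _
      _ ≤ Lam z * Lam z ^ M := Nat.mul_le_mul_right _ (by have : 0 ≤ 16 * 2 ^ K := Nat.zero_le _; omega)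
      _ = Lam z ^ (M + 1) := by rw [pow_succ, mul_comm]
  have hpK : 16 * Lam x ^ K ≤ Lam z ^ (K + 1) := by
    calc 16 * Lam x ^ K ≤ 16 * (2 * Lam z) ^ K := Nat.mul_le_mul_left _ (Nat.pow_le_pow_left hLx K)
      _ = (16 * 2 ^ K) * Lam z ^ K := by rw [Nat.mul_pow]; ring
      _ ≤ Lam z * Lam z ^ K := Nat.mul_le_mul_right _ (by have : 0 ≤ 2 ^ M := Nat.zero_le _; omega)
      _ = Lam z ^ (K + 1) := by rw [pow_succ, mul_comm]
  have hp1 : Lam z ^ (M + 1) ≤ Lam z ^ (M + K + 1) := Nat.pow_le_pow_right hLz (by omega)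
  have hp2 : Lam z ^ (K + 1) ≤ Lam z ^ (M + K + 1) := Nat.pow_le_pow_right hLz (by omega)
  have hc := hgood.2.1
  have hSt : S ξ t ω = S ξ x ω + X ξ (Ico x t) ω := S_split x t t1 ω
  have hXt := X_le (P := P) h.ber x t ω
  have hx1 := hx₄ x (by omega)
  refine ⟨c, t, by omega, by omega, c3, ?_, hgood⟩
  calc t < 2 * x := by omega
    _ ≤ 2 * (8 * Lam x ^ K * z) := Nat.mul_le_mul_left _ hb
    _ = z * (16 * Lam x ^ K) := by ring
    _ ≤ z * Lam z ^ (M + K + 1) := Nat.mul_le_mul_left _ (hpK.trans hp2)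

end Pool.Agent.D0H24.QW
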