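import Pool.Agent.D0H24.QW.Cpl

/-!
# Many windows
-/

set_option autoImplicit false

namespace Pool.Agent.D0H24.QW

open MeasureTheory ProbabilityTheory Finset Filter
open Pool.Agent.D0H24.IP
open Pool.Agent.D0H24.SR (Fil Fil_mono)
open scoped ENNReal

set_option linter.unusedSectionVars false
set_option linter.unusedVariables false

variable {Ω : Type*} [m0 : MeasurableSpace Ω] {P : Measure Ω} {ξ : ℕ → Ω → ℕ}

/-- no success between `x` and `y` -/
def NS2 (ξ : ℕ → Ω → ℕ) (G : Ω → Finset (ℕ × ℕ)) (x y : ℕ) : Set Ω :=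
  {ω | ∀ t, x ≤ t → t < y → ¬ (ξ t ω = 1 ∧ (S ξ t ω + 1, t) ∈ G ω)}

/-- the gaps of `G` are small -/
def Gd2 (P : Measure Ω) (ξ : ℕ → Ω → ℕ) (G : Ω → Finset (ℕ × ℕ)) (x L HC HD : ℕ) (lam : ℝ) : Set Ω :=
  {ω | ∀ z y, S ξ x ω ≤ z → z ≤ S ξ x ω + L → x ≤ y → y ≤ x + L →
    ∃ c t, (c, t) ∈ G ω ∧ z < c ∧ c ≤ z + HC ∧ y ≤ t ∧ t < y + HD ∧ lam ≤ rho P ξ t}

/-- the past information -/
def UU2 (ξ : ℕ → Ω → ℕ) (G : Ω → Finset (ℕ × ℕ)) (n : ℕ) (ω : Ω) : Finset (ℕ × ℕ) × ℕ :=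
  (G ω, S ξ n ω)

lemma UU2_meas (G : Ω → Finset (ℕ × ℕ)) (x n : ℕ) (hxn : x ≤ n)
    (hG : ∀ s, MeasurableSet[Fil ξ x] {ω | G ω = s}) (u : _) :
    MeasurableSet[Fil ξ n] {ω | UU2 ξ G n ω = u} := by
  have e : {ω | UU2 ξ G n ω = u} = {ω | G ω = u.1} ∩ {ω | S ξ n ω = u.2} := by
    ext ω
    unfold UU2
    constructor
    · intro hω
      rw [Set.mem_ofPred_eq] at hω
      rw [← hω]
      exact ⟨rfl, rfl⟩
    · rintro ⟨a, b⟩
      rw [Set.mem_ofPred_eq] at a b ⊢
      rw [a, b]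
  rw [e]
  have hS : Measurable[Fil ξ n] (S ξ n) := X_Fil n _ (fun i hi => (mem_Ico.1 hi).2)
  exact (Fil_mono hxn _ (hG _)).inter (hS (measurableSet_singleton _))

/-- the failure in one window, given the past -/
def Fail2 (ξ : ℕ → Ω → ℕ) (n l : ℕ) (u : Finset (ℕ × ℕ) × ℕ) : Set Ω :=
  {ω | ∀ t, n ≤ t → t < n + l → ¬ (ξ t ω = 1 ∧ (u.2 + X ξ (Ico n t) ω + 1, t) ∈ u.1)}

lemma Fail2_meas (n l : ℕ) (u : Finset (ℕ × ℕ) × ℕ) : MeasurableSet[Fut ξ n] (Fail2 ξ n l u) := by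
  unfold Fail2
  simp only [Set.ofPred_forall]
  apply MeasurableSet.iInter
  intro t
  apply MeasurableSet.iInter
  intro ht
  apply MeasurableSet.iInter
  intro _
  apply MeasurableSet.compl
  have h1 : MeasurableSet[Fut ξ n] {ω | ξ t ω = 1} := xi_Fut ht (measurableSet_singleton 1)
  have h2 : MeasurableSet[Fut ξ n] {ω | (u.2 + X ξ (Ico n t) ω + 1, t) ∈ u.1} :=
    (X_Fut n (Ico n t) (fun i hi => (mem_Ico.1 hi).1))
      (MeasurableSet.of_discrete (s := {a : ℕ | (u.2 + a + 1, t) ∈ u.1}))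
  exact h1.inter h2

/-- many windows -/
theorem many2 [IsProbabilityMeasure P] (h : Ber P ξ) (x k J : ℕ) (G : Ω → Finset (ℕ × ℕ)) (lam : ℝ) (HC HD : ℕ)
    (hGm : ∀ s, MeasurableSet[Fil ξ x] {ω | G ω = s})
    (hlam : 0 < lam) (hHC : 1 ≤ HC) (hHD : 1 ≤ HD)
    (h1 : ∀ y, x ≤ y → y ≤ x + J * (k + HD) → lam * k ≤ ∑ i ∈ Ico y (y + k), rho P ξ i)
    (h3 : ∀ i, x ≤ i → rho P ξ i ≤ 1 / 2)
    (hk2 : 32 * ((HC : ℝ) + HD) ^ 2 * (HC : ℝ) ^ 2 * (HD : ℝ) ^ 2 ≤ lam * k)
    (j : ℕ) (hj : j ≤ J) :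
    P (Gd2 P ξ G x (J * (k + HD)) HC HD lam ∩ NS2 ξ G x (x + j * (k + HD))) ≤
      ENNReal.ofReal (1 - lam / (2 * HC * HD)) ^ j := by
  induction j with
  | zero =>
    rw [pow_zero]
    exact prob_le_one
  | succ j ih =>
    have ih' := ih (by omega)
    set l := k + HD with hl
    set n := x + j * l with hn
    have hxn : x ≤ n := by omega
    have hjl : (j + 1) * l = j * l + l := by ring
    have hJl : (j + 1) * l ≤ J * l := Nat.mul_le_mul_right _ hj
    set E := Gd2 P ξ G x (J * l) HC HD lam ∩ NS2 ξ G x n with hE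
    have hsub : Gd2 P ξ G x (J * l) HC HD lam ∩ NS2 ξ G x (x + (j + 1) * l) ⊆
        E ∩ {ω | ω ∈ Fail2 ξ n l (UU2 ξ G n ω)} := by
      rintro ω ⟨g1, g2⟩
      refine ⟨⟨g1, fun t a b => g2 t a (by omega)⟩, ?_⟩
      intro t a b
      have g3 := g2 t (by omega) (by omega)
      rw [S_split n t a ω] at g3
      exact g3
    have hEm : MeasurableSet[Fil ξ n] E := by
      have hUx := UU2_meas (ξ := ξ) G x x le_rfl hGm
      have m1 : MeasurableSet[Fil ξ n] (Gd2 P ξ G x (J * l) HC HD lam) :=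
        Fil_mono hxn _ (fin_meas (Fil ξ x) (UU2 ξ G x) hUx (fun u : Finset (ℕ × ℕ) × ℕ =>
          ∀ z y, u.2 ≤ z → z ≤ u.2 + J * l → x ≤ y → y ≤ x + J * l →
            ∃ c t, (c, t) ∈ u.1 ∧ z < c ∧ c ≤ z + HC ∧ y ≤ t ∧ t < y + HD ∧ lam ≤ rho P ξ t))
      have m2 : MeasurableSet[Fil ξ n] (NS2 ξ G x n) := by
        unfold NS2
        simp only [Set.ofPred_forall]
        apply MeasurableSet.iInter
        intro t
        apply MeasurableSet.iInter
        intro _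
        apply MeasurableSet.iInter
        intro ht
        apply MeasurableSet.compl
        have a2 : MeasurableSet[Fil ξ n] {ω | ξ t ω = 1} := xi_Fil ht (measurableSet_singleton 1)
        have a3 : MeasurableSet[Fil ξ n] {ω | (S ξ t ω + 1, t) ∈ G ω} := by
          have e2 : {ω | (S ξ t ω + 1, t) ∈ G ω} =
              ⋃ s : Finset (ℕ × ℕ), {ω | G ω = s} ∩ {ω | (S ξ t ω + 1, t) ∈ s} := by
            ext ω
            simp
          rw [e2]
          apply MeasurableSet.iUnion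
          intro s
          apply MeasurableSet.inter (Fil_mono hxn _ (hGm s))
          exact (X_Fil n (Ico 0 t) (fun i hi => (mem_Ico.1 hi).2.trans ht))
            (MeasurableSet.of_discrete (s := {a : ℕ | (a + 1, t) ∈ s}))
        exact a2.inter a3
      exact m1.inter m2
    have hspl := spl h n (UU2 ξ G n) (UU2_meas G x n hxn hGm) E hEm (Fail2 ξ n l) (Fail2_meas n l)
      (ENNReal.ofReal (1 - lam / (2 * HC * HD))) (by
        rintro u ⟨ω, ⟨g1, -⟩, rfl⟩
        have hSn : S ξ n ω ≤ S ξ x ω + j * l := by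
          rw [S_split x n hxn ω]
          have := X_le (P := P) h x n ω
          omega
        have hSx : S ξ x ω ≤ S ξ n ω := by
          rw [S_split x n hxn ω]
          omega
        have hone := one2 h n k (S ξ n ω) (G ω : Set (ℕ × ℕ)) lam HC HD hlam hHC hHD
          (h1 n hxn (by omega)) (fun i hi => h3 i (by rw [mem_Ico] at hi; omega))
          (fun z a b => g1 z (n + k) (by omega) (by omega) (by omega) (by omega)) hk2
        have hcompl : Fail2 ξ n l (UU2 ξ G n ω) = {ω' | ∃ t, n ≤ t ∧ t < n + (k + HD) ∧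
            ξ t ω' = 1 ∧ (S ξ n ω + X ξ (Ico n t) ω' + 1, t) ∈ (G ω : Set (ℕ × ℕ))}ᶜ := by
          ext ω'
          unfold Fail2 UU2
          simp only [Set.mem_ofPred_eq, Set.mem_compl_iff, not_exists, not_and, mem_coe]
          constructor
          · intro a t b c d e
            exact a t b c d e
          · intro a t b c d e
            exact a t b c d e
        have hm : MeasurableSet (Fail2 ξ n l (UU2 ξ G n ω)) := Fut_le' h n _ (Fail2_meas n l _)
        have hprob : P.real (Fail2 ξ n l (UU2 ξ G n ω)) ≤ 1 - lam / (2 * HC * HD) := by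
          have hm2 : MeasurableSet {ω' | ∃ t, n ≤ t ∧ t < n + (k + HD) ∧
            ξ t ω' = 1 ∧ (S ξ n ω + X ξ (Ico n t) ω' + 1, t) ∈ (G ω : Set (ℕ × ℕ))} := by
            have := hm.compl
            rw [hcompl, compl_compl] at this
            exact this
          rw [hcompl, measureReal_compl hm2]
          simp only [probReal_univ]
          linarith
        rw [← ENNReal.ofReal_toReal (measure_ne_top P (Fail2 ξ n l (UU2 ξ G n ω)))]
        exact ENNReal.ofReal_le_ofReal hprob)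
    calc P (Gd2 P ξ G x (J * l) HC HD lam ∩ NS2 ξ G x (x + (j + 1) * l)) ≤
          P (E ∩ {ω | ω ∈ Fail2 ξ n l (UU2 ξ G n ω)}) := measure_mono hsub
      _ ≤ ENNReal.ofReal (1 - lam / (2 * HC * HD)) * P E := hspl
      _ ≤ ENNReal.ofReal (1 - lam / (2 * HC * HD)) * ENNReal.ofReal (1 - lam / (2 * HC * HD)) ^ j := by
          gcongr
      _ = _ := by rw [pow_succ (ENNReal.ofReal (1 - lam / (2 * HC * HD))) j, mul_comm]

/-- the length of the first part of a window -/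
def k2 (a e : ℕ) (x : ℕ) : ℕ := Lam x ^ (6 * a + e + 1)

/-- the number of windows -/
def J2 (a e : ℕ) (x : ℕ) : ℕ := Lam x ^ (e + 2 * a + 4)

/-- the total length -/
def L2 (a e : ℕ) (x : ℕ) : ℕ := J2 a e x * (k2 a e x + Lam x ^ a)

lemma L2_le (a e x : ℕ) (hx : 3 ≤ Lam x) : L2 a e x ≤ Lam x ^ (8 * a + 2 * e + 6) := by
  unfold L2 J2 k2
  have h1 : Lam x ^ a ≤ Lam x ^ (6 * a + e + 1) := Nat.pow_le_pow_right (Lam_pos x) (by omega)
  calc Lam x ^ (e + 2 * a + 4) * (Lam x ^ (6 * a + e + 1) + Lam x ^ a) ≤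
      Lam x ^ (e + 2 * a + 4) * (Lam x * Lam x ^ (6 * a + e + 1)) := by
        apply Nat.mul_le_mul_left
        nlinarith [Nat.pow_pos (Lam_pos x) (n := 6 * a + e + 1)]
    _ = Lam x ^ (8 * a + 2 * e + 6) := by
        rw [← pow_succ', ← pow_add]
        congr 1
        ring

/-- the failure probability -/
theorem bound2 [IsProbabilityMeasure P] {q κ : ℕ} (hq : 1 ≤ q) (h : Mod P ξ q κ) (a : ℕ) :
    ∀ᶠ x in atTop, ∀ G : Ω → Finset (ℕ × ℕ), (∀ s, MeasurableSet[Fil ξ x] {ω | G ω = s}) →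
      P (Gd2 P ξ G x (L2 a (κ + 2) x) (Lam x ^ a) (Lam x ^ a) (1 / (Lam x : ℝ) ^ (κ + 2)) ∩
        NS2 ξ G x (x + L2 a (κ + 2) x)) ≤ ENNReal.ofReal (1 / (x : ℝ) ^ 4) := by
  set e := κ + 2 with he
  have hs : ∀ᶠ i in atTop, rho P ξ i ≤ 1 / 2 := by
    have : (0 : ℝ) < 1 / 2 := by norm_num
    filter_upwards [h.small.eventually (gt_mem_nhds this)] with i hi
    exact hi.le
  obtain ⟨i₀, hi₀⟩ := eventually_atTop.1 hs
  have hbig := tendsto_Lam.eventually_ge_atTop 128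
  have hlen := Lam_pow_le (8 * a + 2 * e + 6) 2
  filter_upwards [rho_sum hq h (6 * a + e + 1) (by omega), hbig, hlen, eventually_ge_atTop i₀,
    eventually_ge_atTop 1] with x hsum hL hlen hx hx1 G hG
  have hLL := L2_le a e x (by omega)
  have hkL : k2 a e x ≤ Lam x ^ (8 * a + 2 * e + 6) :=
    Nat.pow_le_pow_right (Lam_pos x) (by omega)
  have hLr : (128 : ℝ) ≤ Lam x := by exact_mod_cast hL
  have hL0 : (0 : ℝ) < Lam x := by linarith
  have hm := many2 h.ber x (k2 a e x) (J2 a e x) G (1 / (Lam x : ℝ) ^ e) (Lam x ^ a) (Lam x ^ a) hG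
    (by positivity) (Nat.pow_pos (Lam_pos x)) (Nat.pow_pos (Lam_pos x))
    (by
      intro y hy1 hy2
      have hy3 : y ≤ x + L2 a e x := hy2
      exact hsum y hy1 (by
        have : k2 a e x = Lam x ^ (6 * a + e + 1) := rfl
        omega))
    (fun i hi => hi₀ i (by omega))
    (by
      unfold k2
      push_cast
      have e0 : 1 / (Lam x : ℝ) ^ e * (Lam x : ℝ) ^ (6 * a + e + 1) =
          ((Lam x : ℝ) ^ a) ^ 6 * Lam x := by
        field_simp
        ring
      rw [e0]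
      have e1 : 32 * ((Lam x : ℝ) ^ a + (Lam x : ℝ) ^ a) ^ 2 * ((Lam x : ℝ) ^ a) ^ 2 * ((Lam x : ℝ) ^ a) ^ 2 =
          128 * ((Lam x : ℝ) ^ a) ^ 6 := by ring
      rw [e1]
      have e4 : (0 : ℝ) < ((Lam x : ℝ) ^ a) ^ 6 := by positivity
      have e5 := mul_le_mul_of_nonneg_left hLr e4.le
      linarith only [e5])
    (J2 a e x) le_rfl
  have eL : J2 a e x * (k2 a e x + Lam x ^ a) = L2 a e x := rfl
  rw [eL] at hm
  refine hm.trans ?_
  set δ := (1 / (Lam x : ℝ) ^ e) / (2 * ((Lam x ^ a : ℕ) : ℝ) * ((Lam x ^ a : ℕ) : ℝ)) with hδ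
  have hδ0 : 0 ≤ 1 - δ := by
    have e5 : δ ≤ 1 := by
      rw [hδ]
      push_cast
      rw [div_le_one (by positivity)]
      have e6 : 1 / (Lam x : ℝ) ^ e ≤ 1 := by
        rw [div_le_one (by positivity)]
        exact one_le_pow₀ (by linarith)
      have e7 : (1 : ℝ) ≤ (Lam x : ℝ) ^ a := one_le_pow₀ (by linarith)
      generalize (Lam x : ℝ) ^ a = w at e7 ⊢
      have e8 : w ≤ w * w := le_mul_of_one_le_left (by linarith) e7
      have e9 : 2 * w * w = 2 * (w * w) := by ring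
      rw [e9]
      linarith only [e6, e7, e8]
    linarith
  rw [← ENNReal.ofReal_pow hδ0]
  apply ENNReal.ofReal_le_ofReal
  have hδJ : δ * (J2 a e x : ℕ) = (Lam x : ℝ) ^ 4 / 2 := by
    rw [hδ]
    unfold J2
    push_cast
    field_simp
    ring
  have hδ1 : 1 - δ ≤ Real.exp (-δ) := by
    have := Real.add_one_le_exp (-δ)
    linarith
  calc (1 - δ) ^ (J2 a e x) ≤ Real.exp (-δ) ^ (J2 a e x) := pow_le_pow_left₀ hδ0 hδ1 _
    _ = Real.exp (-((Lam x : ℝ) ^ 4 / 2)) := by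
        rw [← Real.exp_nat_mul, ← hδJ]
        congr 1
        ring
    _ ≤ 1 / (x : ℝ) ^ 4 := by
        have hx0 : (0 : ℝ) < x := by exact_mod_cast hx1
        have hx2 : (x : ℝ) ≤ Real.exp (Lam x) := by
          have e8 : (x : ℝ) ≤ 2 ^ Lam x := by exact_mod_cast (lt_two_pow_Lam x).le
          have e9 : (2 : ℝ) ^ Lam x ≤ Real.exp 1 ^ Lam x :=
            pow_le_pow_left₀ (by norm_num) (by linarith [Real.exp_one_gt_d9]) _
          rw [← Real.exp_nat_mul, mul_one] at e9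
          exact e8.trans e9
        have hx3 : (x : ℝ) ^ 4 ≤ Real.exp ((Lam x : ℝ) ^ 4 / 2) := by
          calc (x : ℝ) ^ 4 ≤ Real.exp (Lam x) ^ 4 := pow_le_pow_left₀ hx0.le hx2 4
            _ = Real.exp (4 * Lam x) := by
                rw [← Real.exp_nat_mul]
                norm_num
            _ ≤ _ := by
                apply Real.exp_le_exp.2
                have e10 : (8 : ℝ) ≤ (Lam x : ℝ) ^ 3 := by
                  calc (8 : ℝ) ≤ 128 ^ 3 := by norm_num
                    _ ≤ _ := pow_le_pow_left₀ (by norm_num) hLr 3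
                have e11 := mul_le_mul_of_nonneg_right e10 hL0.le
                have e12 : (Lam x : ℝ) ^ 4 = (Lam x : ℝ) ^ 3 * Lam x := pow_succ _ 3
                linarith only [e11, e12]
        rw [Real.exp_neg, ← one_div]
        exact one_div_le_one_div_of_le (by positivity) hx3

end Pool.Agent.D0H24.QW
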